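import Pool.Agent.H73.AZ.Fun
import Pool.Agent.H73.AD.Bad

/-! Counting assignments which are not good. -/

namespace Pool.Agent.H73.AZ

open Finset Matrix Pool.Agent.H73.QA Pool.Agent.H73.AD
open Pool.Agent.H73.AX (GoodP GoodOpP near_goodP l2_integral_le)

set_option linter.unusedSectionVars false

variable {n k m : ℕ} {Y : Type} [Fintype Y] [DecidableEq Y] {p q r : ℕ}

/-- counting by fibers -/
theorem count_fib {K : Type} [DecidableEq K] (S : Finset (Cube n)) (I : Finset K)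
    (key : Cube n → K) (hI : ∀ z ∈ S, key z ∈ I) (f : Cube n → ℝ) {η B : ℝ} (hη : 0 < η)
    (hf : ∀ z ∈ S, η < f z)
    (hB : ∀ F : Finset (Cube n), F ⊆ S → ∀ z0 ∈ F, (∀ z ∈ F, key z = key z0) →
      l2 (fun z : F => f z) ≤ 2 * B) :
    (S.card : ℝ) ≤ I.card * (4 * B ^ 2 / η ^ 2) := by
  classical
  refine fiber_count S key I hI (b := 4 * B ^ 2 / η ^ 2) fun y _ => ?_
  obtain ⟨F, hF⟩ : ∃ F, F = S.filter fun z => key z = y := ⟨_, rfl⟩
  rw [← hF]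
  have hFS : ∀ z ∈ F, z ∈ S ∧ key z = y := by
    intro z hz
    rw [hF, mem_filter] at hz
    exact hz
  rcases F.eq_empty_or_nonempty with hF0 | ⟨z0, hz0⟩
  · rw [hF0, card_empty, Nat.cast_zero]
    positivity
  have h1 := hB F (fun z hz => (hFS z hz).1) z0 hz0
    (fun z hz => (hFS z hz).2.trans (hFS z0 hz0).2.symm)
  have h2 : l2 (fun z : F => f z) ^ 2 ≤ (2 * B) ^ 2 := pow_le_pow_left₀ (l2r_nonneg _) h1 2
  have h3 : l2 (fun z : F => f z) ^ 2 = ∑ z : F, f z ^ 2 := by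
    unfold l2
    rw [Real.sq_sqrt (sum_nonneg fun _ _ => sq_nonneg _)]
    exact sum_congr rfl fun z _ => by rw [Real.norm_eq_abs, sq_abs]
  have h4 : (F.card : ℝ) * η ^ 2 ≤ ∑ z : F, f z ^ 2 := by
    calc (F.card : ℝ) * η ^ 2 = ∑ _z : F, η ^ 2 := by
          rw [sum_const, card_univ, Fintype.card_coe, nsmul_eq_mul]
      _ ≤ _ := sum_le_sum fun z _ => pow_le_pow_left₀ hη.le (hf z (hFS z z.2).1).le 2
  rw [le_div_iff₀ (by positivity)]
  rw [h3] at h2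
  linarith

/-- functions that discretise the parameters -/
structure Nets (A : Set (Fin p → ℝ)) (Λ ρ σ : ℝ) (r : ℕ) {K : Type} (Ic : Finset K)
    (Is : Finset ℤ) (cell : (Fin p → ℝ) → K) (bx : K → Fin p → ℝ) (ns : ℝ → ℤ) : Prop where
  c1 : ∀ a ∈ A, ∑ i, |a i| ≤ Λ → cell a ∈ Ic
  c2 : ∀ a ∈ A, ∀ a' ∈ A, ∑ i, |a i| ≤ Λ → ∑ i, |a' i| ≤ Λ → cell a = cell a' →
    ∀ i, |a i - a' i| ≤ bx (cell a') i
  b0 : ∀ y i, 0 ≤ bx y i
  b1 : ∀ y, ∑ i, bx y i ≤ 2 * ρ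
  s1 : ∀ x, |x| ≤ Λ * 2 ^ (r + 1) → ns x ∈ Is
  s2 : ∀ x y, ns x = ns y → |x - y| ≤ σ

theorem abs_le_of_eig {A : Sp n Y →ₗ[ℂ] Sp n Y} {B e : ℝ} {v : Sp n Y}
    (hA : ∀ u, ‖A u‖ ≤ B * ‖u‖) (hv : ‖v‖ = 1) (he : A v = (e : ℂ) • v) : |e| ≤ B := by
  have h1 := hA v
  rw [he, norm_smul, Complex.norm_real, Real.norm_eq_abs, hv, mul_one, mul_one] at h1
  exact h1

variable {G : Fin m → Clause n k} {α κ Λ ε δ ν t ρ σ β R : ℝ} {J : ℕ} {A : Set (Fin p → ℝ)}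
variable {K : Type} [DecidableEq K] {Ic : Finset K} {Is : Finset ℤ} {cell : (Fin p → ℝ) → K}
  {bx : K → Fin p → ℝ} {ns : ℝ → ℤ}

theorem geo_nonneg (hC : Consts κ Λ ε δ ν ρ σ β R n k J r) : 0 ≤ geo κ Λ ρ σ r J := by
  unfold geo
  have h1 := hC.κ0
  have h2 := hC.Λ0
  have h3 := hC.ρ0
  have h4 := hC.σ0
  positivity

/-- limits of sources -/
theorem goodP_source {Z : Type} [Fintype Z] {x a b cu : ℝ} (hβ : 0 ≤ β) (hx : 0 ≤ x)
    (ha : 0 ≤ a) {v : Z → Sp n Y} (h : ∀ cu' > cu, Good β ((b + a * cu') * x + 1) v) :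
    GoodP β ((b + a * cu) * x + 1) v := by
  intro c' hc'
  obtain ⟨t, ht⟩ : ∃ t, t = c' - ((b + a * cu) * x + 1) := ⟨_, rfl⟩
  have ht0 : 0 < t := by rw [ht]; linarith
  have hax : 0 < a * x + 1 := by positivity
  refine (h (cu + t / (a * x + 1)) (by
    have : 0 < t / (a * x + 1) := div_pos ht0 hax
    linarith)).mono hβ ?_
  have h3 : a * x * (t / (a * x + 1)) ≤ t := by
    rw [mul_div_assoc', div_le_iff₀ hax]
    nlinarith [mul_nonneg ha hx]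
  have h4 : (b + a * (cu + t / (a * x + 1))) * x + 1 =
      (b + a * cu) * x + 1 + a * x * (t / (a * x + 1)) := by ring
  rw [h4]
  linarith

/-- eigenvectors of averaged Hamiltonians -/
theorem count0 (hC : Consts κ Λ ε δ ν ρ σ β R n k J r) (hD : Std ε δ ν t r G)
    (w : Fin p → List (Letter n m Y))
    (hw : ∀ i, ∀ l ∈ w i, l.Ok t r G) (hr : ∀ i, (w i).length ≤ r)
    (hR : (2 : ℝ) ^ (α * n) ≤ R ^ 2)
    (hN : Nets A Λ ρ σ r Ic Is cell bx ns) {η : ℝ} (hη : 0 < η) (S : Finset (Cube n))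
    (hS : ∀ z ∈ S, ∃ (a : Fin p → ℝ) (e : ℝ) (v : Sp n Y), a ∈ A ∧ ∑ i, |a i| ≤ Λ ∧ ‖v‖ = 1 ∧
      lin (Ham Letter.av w a) v = (e : ℂ) • v ∧ Few α κ e (Ham Letter.av w a) ∧
      η < NR G δ w z v) :
    (S.card : ℝ) ≤ (Ic.card * Is.card : ℝ) *
      (4 * (β * (MR p r * (R * geo κ Λ ρ σ r J + 1))) ^ 2 / η ^ 2) := by
  classical
  choose! a e v hS using hS
  have hg := geo_nonneg (n := n) (k := k) hC
  have hMR : 0 ≤ MR p r := zero_le_one.trans (MR_one_le p r)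
  have hR0 := hC.R0
  have h := count_fib S (Ic ×ˢ Is) (fun z => (cell (a z), ns (e z))) (fun z hz => ?_)
    (fun z => NR G δ w z (v z)) hη (B := β * (MR p r * (R * geo κ Λ ρ σ r J + 1)))
    (fun z hz => (hS z hz).2.2.2.2.2) (fun F hFS z0 hz0 hkey => ?_)
  · rw [card_product] at h
    push_cast at h
    exact h
  · obtain ⟨h0, h1, h2, h3, h4, h5⟩ := hS z hz
    rw [mem_product]
    refine ⟨hN.c1 _ h0 h1, hN.s1 _ ?_⟩
    have h6 := abs_le_of_eig (B := Λ * 2) (fun u => by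
      rw [mul_assoc]; exact norm_ham_av w hw (a z) h1 u) h2 h3
    refine h6.trans (mul_le_mul_of_nonneg_left ?_ hC.Λ0)
    calc (2 : ℝ) = 2 ^ 1 := by norm_num
      _ ≤ 2 ^ (r + 1) := pow_le_pow_right₀ one_le_two (by omega)
  · have hk : ∀ z : F, cell (a z) = cell (a z0) ∧ ns (e z) = ns (e z0) := by
      intro z
      have h1 := hkey z z.2
      simpa [Prod.ext_iff] using h1
    have h0 := hS z0 (hFS hz0)
    obtain ⟨hA, hfew⟩ := h0.2.2.2.2.1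
    have h1 := famA (α := α) (cu := 0) (θ := e z0 + κ) hC w hw (a z0) h0.2.1 hR
      ⟨hA, hfew⟩ (Z := F) (fun z => (z : Cube n)) Subtype.val_injective (fun z => a z)
      (bx (cell (a z0))) (hN.b0 _) (hN.b1 _)
      (fun z => hN.c2 _ (hS z (hFS z.2)).1 _ h0.1 (hS z (hFS z.2)).2.1 h0.2.1 (hk z).1)
      (fun z => e z) (e z0) (fun z => hN.s2 _ _ (hk z).2)
      (by have := hC.κ0; linarith) (fun z => v z) (fun _ => 0)
      (fun z => (hS z (hFS z.2)).2.2.1.le) (Good.zero hC.β0.le le_rfl) (fun z => by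
        rw [(hS z (hFS z.2)).2.2.2.1, sub_self])
    rw [mul_zero, add_zero] at h1
    exact l2_NR hD hC.β0.le (fun z : F => (z : Cube n))
      (ball_sub hC.ball (fun z : F => (z : Cube n)) Subtype.val_injective) w hw hr
      (by positivity) (AX.Good.plus hC.β0.le h1)

/-- eigenvectors of flattened Hamiltonians are good -/
theorem fam1 (hC : Consts κ Λ ε δ ν ρ σ β R n k J r) (hD : Std ε δ ν t r G)
    (w : Fin p → List (Letter n m Y))
    (hw : ∀ i, ∀ l ∈ w i, l.Ok t r G) (hr : ∀ i, (w i).length ≤ r)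
    (hR : (2 : ℝ) ^ (α * n) ≤ R ^ 2) (hN : Nets A Λ ρ σ r Ic Is cell bx ns)
    {S : Finset (Cube n)}
    {a : Cube n → Fin p → ℝ} {e f : Cube n → ℝ} {φ : Cube n → Sp n Y}
    (h0 : ∀ z ∈ S, a z ∈ A ∧ ∑ i, |a z i| ≤ Λ ∧ ‖φ z‖ = 1 ∧
      lin (Ham (Letter.flt G δ z) w (a z)) (φ z) = (f z : ℂ) • φ z ∧
      Few α (κ / 2) (e z) (Ham Letter.av w (a z)) ∧ |f z - e z| ≤ κ / 8)
    {F : Finset (Cube n)} (hFS : F ⊆ S) {z0 : Cube n} (hz0 : z0 ∈ F)
    (hk : ∀ z : F, cell (a z) = cell (a z0) ∧ ns (f z) = ns (f z0)) :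
    Good β (R * geo κ Λ ρ σ r J + 1) (fun z : F => φ z) := by
  have h0z := h0 z0 (hFS hz0)
  obtain ⟨hA, hfew⟩ := h0z.2.2.2.2.1
  have h1 := famF (α := α) (cu := 0) (θ := e z0 + κ / 2) hC hD w hw hr (a z0) h0z.2.1 hR
    ⟨hA, hfew⟩ (Z := F) (fun z => (z : Cube n)) Subtype.val_injective (fun z => a z)
    (fun z => (h0 z (hFS z.2)).2.1) (bx (cell (a z0))) (hN.b0 _) (hN.b1 _)
    (fun z => hN.c2 _ (h0 z (hFS z.2)).1 _ h0z.1 (h0 z (hFS z.2)).2.1 h0z.2.1 (hk z).1)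
    (fun z => f z) (f z0) (fun z => hN.s2 _ _ (hk z).2)
    (by have h2 := (abs_le.1 h0z.2.2.2.2.2).2; have := hC.κ0; linarith) (fun z => φ z)
    (fun _ => 0) (fun z => (h0 z (hFS z.2)).2.2.1.le) (Good.zero hC.β0.le le_rfl) (fun z => by
      rw [(h0 z (hFS z.2)).2.2.2.1, sub_self])
  rw [mul_zero, add_zero] at h1
  exact h1

theorem Tw_gok {T : Fin q → List (Gate n p Y)} (hT : ∀ j, ∀ c ∈ T j, c.Ok)
    (o : Option (Fin q)) : ∀ c ∈ Tw T o, c.Ok := by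
  cases o with
  | none => intro c hc; exact absurd hc List.not_mem_nil
  | some j => exact hT j

theorem Tw_act {T : Fin q → List (Gate n p Y)} {B : ℝ} (hB0 : 0 ≤ B)
    (hB : ∀ j, act (T j) ≤ B) (o : Option (Fin q)) : act (Tw T o) ≤ B := by
  cases o with
  | none => exact hB0
  | some j => exact hB j

/-- eigenvectors of flattened Hamiltonians -/
theorem count1 (hC : Consts κ Λ ε δ ν ρ σ β R n k J r) (hD : Std ε δ ν t r G)
    (w : Fin p → List (Letter n m Y))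
    (T : Fin q → List (Gate n p Y)) (hw : ∀ i, ∀ l ∈ w i, l.Ok t r G)
    (hr : ∀ i, (w i).length ≤ r) (hT : ∀ j, ∀ c ∈ T j, c.Ok) {B : ℝ} (hB0 : 0 ≤ B)
    (hB : ∀ j, act (T j) ≤ B) (hR : (2 : ℝ) ^ (α * n) ≤ R ^ 2)
    (hN : Nets A Λ ρ σ r Ic Is cell bx ns) {η : ℝ} (hη : 0 < η) (S : Finset (Cube n))
    (hS : ∀ z ∈ S, ∃ (a : Fin p → ℝ) (e f : ℝ) (φ : Sp n Y) (o : Option (Fin q)),
      (a ∈ A ∧ ∑ i, |a i| ≤ Λ ∧ ‖φ‖ = 1 ∧
      lin (Ham (Letter.flt G δ z) w a) φ = (f : ℂ) • φ ∧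
      Few α (κ / 2) e (Ham Letter.av w a) ∧ |f - e| ≤ κ / 8) ∧ η < NX G δ r w z (Tw T o) φ) :
    (S.card : ℝ) ≤ ((q + 1) * (Ic.card * Is.card) : ℝ) *
      (4 * (β * (AXc p r B * (R * geo κ Λ ρ σ r J + 1))) ^ 2 / η ^ 2) := by
  classical
  choose! a e f φ o hS using hS
  have hg := geo_nonneg (n := n) (k := k) hC
  have hR0 := hC.R0
  have h := count_fib S ((univ : Finset (Option (Fin q))) ×ˢ (Ic ×ˢ Is))
    (fun z => (o z, (cell (a z), ns (f z)))) (fun z hz => ?_)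
    (fun z => NX G δ r w z (Tw T (o z)) (φ z)) hη
    (B := β * (AXc p r B * (R * geo κ Λ ρ σ r J + 1)))
    (fun z hz => (hS z hz).2) (fun F hFS z0 hz0 hkey => ?_)
  · simp only [card_product, card_univ (α := Option (Fin q)), Fintype.card_option,
      Fintype.card_fin] at h
    push_cast at h
    exact h
  · obtain ⟨⟨h0, h1, h2, h3, h4, h5⟩, h6⟩ := hS z hz
    simp only [mem_product, mem_univ, true_and]
    exact ⟨hN.c1 _ h0 h1, hN.s1 _ (abs_le_of_eig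
      (norm_ham_flt hD z w hw hr (a z) h1) h2 h3)⟩
  · have hk : ∀ z : F, o z = o z0 ∧ cell (a z) = cell (a z0) ∧ ns (f z) = ns (f z0) := by
      intro z
      have h1 := hkey z z.2
      simpa [Prod.ext_iff] using h1
    have h1 := fam1 hC hD w hw hr hR hN (fun z hz => (hS z hz).1) hFS hz0
      (fun z => (hk z).2)
    have h2 := l2_NX hD hC.β0 (fun z : F => (z : Cube n))
      (ball_sub hC.ball (fun z : F => (z : Cube n)) Subtype.val_injective) w hw hr (Tw T (o z0))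
      (Tw_gok hT _) (Tw_act hB0 hB _) (by positivity) (AX.Good.plus hC.β0.le h1)
    have h3 : (fun z : F => NX G δ r w z (Tw T (o z)) (φ z)) =
        fun z : F => NX G δ r w (z : Cube n) (Tw T (o z0)) (φ z) := by
      funext z
      rw [(hk z).1]
    rw [h3]
    exact h2

/-- resolvents -/
theorem count2 (hC : Consts κ Λ ε δ ν ρ σ β R n k J r) (hD : Std ε δ ν t r G)
    (w : Fin p → List (Letter n m Y))
    (T : Fin q → List (Gate n p Y)) (hw : ∀ i, ∀ l ∈ w i, l.Ok t r G)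
    (hr : ∀ i, (w i).length ≤ r) (hT : ∀ j, ∀ c ∈ T j, c.Ok) {B : ℝ} (hB0 : 0 ≤ B)
    (hB : ∀ j, act (T j) ≤ B) (hR : (2 : ℝ) ^ (α * n) ≤ R ^ 2)
    (hN : Nets A Λ ρ σ r Ic Is cell bx ns) {η : ℝ} (hη : 0 < η) (S : Finset (Cube n))
    (hS : ∀ z ∈ S, ∃ (a : Fin p → ℝ) (e f : ℝ) (φ : Sp n Y) (o : Option (Fin q))
      (a' : Fin p → ℝ) (e' d : ℝ) (v : Sp n Y), (a ∈ A ∧ ∑ i, |a i| ≤ Λ ∧ ‖φ‖ = 1 ∧
      lin (Ham (Letter.flt G δ z) w a) φ = (f : ℂ) • φ ∧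
      Few α (κ / 2) e (Ham Letter.av w a) ∧ |f - e| ≤ κ / 8) ∧ (a' ∈ A ∧ ∑ i, |a' i| ≤ Λ ∧
      Few α (κ / 2) e' (Ham Letter.av w a') ∧ |e'| ≤ Λ * 2 ^ (r + 1) ∧ 0 < d ∧ d ≤ 1 ∧ ‖v‖ ≤ 1 ∧
      lin (Ham (Letter.flt G δ z) w a') v - (e' : ℂ) • v =
      (d : ℂ) • lin (circ (Letter.flt G δ z) w z (Tw T o)) φ) ∧ η < NR G δ w z v) :
    (S.card : ℝ) ≤ (((Ic.card * Is.card) * ((q + 1) * (Ic.card * Is.card)) : ℝ)) *
      (4 * (β * (MR p r * ((R + (κ / 4)⁻¹ * (Real.exp (2 * 16 ^ r * B) *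
        (R * geo κ Λ ρ σ r J + 1))) * geo κ Λ ρ σ r J + 1))) ^ 2 / η ^ 2) := by
  classical
  choose! a e f φ o a' e' d v hS using hS
  have hg := geo_nonneg (n := n) (k := k) hC
  have hR0 := hC.R0
  have hκ0 := hC.κ0
  have h := count_fib S ((Ic ×ˢ Is) ×ˢ (univ : Finset (Option (Fin q))) ×ˢ (Ic ×ˢ Is))
    (fun z => ((cell (a z), ns (f z)), o z, (cell (a' z), ns (e' z)))) (fun z hz => ?_)
    (fun z => NR G δ w z (v z)) hη
    (B := β * (MR p r * ((R + (κ / 4)⁻¹ * (Real.exp (2 * 16 ^ r * B) *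
        (R * geo κ Λ ρ σ r J + 1))) * geo κ Λ ρ σ r J + 1)))
    (fun z hz => (hS z hz).2.2) (fun F hFS z0 hz0 hkey => ?_)
  · simp only [card_product, card_univ (α := Option (Fin q)), Fintype.card_option,
      Fintype.card_fin] at h
    push_cast at h
    exact h
  · obtain ⟨⟨h0, h1, h2, h3, h4, h5⟩, ⟨h0', h6, h7, h8, h9⟩, h10⟩ := hS z hz
    simp only [mem_product, mem_univ, true_and]
    exact ⟨⟨hN.c1 _ h0 h1, hN.s1 _ (abs_le_of_eig
      (norm_ham_flt hD z w hw hr (a z) h1) h2 h3)⟩, hN.c1 _ h0' h6, hN.s1 _ h8⟩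
  · have hk : ∀ z : F, (cell (a z) = cell (a z0) ∧ ns (f z) = ns (f z0)) ∧ o z = o z0 ∧
        cell (a' z) = cell (a' z0) ∧ ns (e' z) = ns (e' z0) := by
      intro z
      have h1 := hkey z z.2
      simpa [Prod.ext_iff] using h1
    have h1 := fam1 hC hD w hw hr hR hN (fun z hz => (hS z hz).1) hFS hz0
      (fun z => (hk z).1)
    -- the source of the second equation
    have hinj : Function.Injective (fun z : F => (z : Cube n)) := Subtype.val_injective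
    have hBl := ball_sub hC.ball (fun z : F => (z : Cube n)) hinj
    have hc0 : 0 ≤ R * geo κ Λ ρ σ r J + 1 := by positivity
    have h2 := (AX.GoodOpP.mono (goodOpP_circ hD hC.β0 (fun z : F => (z : Cube n)) hBl w hw hr
      (Tw T (o z0)) (Tw_gok hT _)) (Real.exp_le_exp.2 (mul_le_mul_of_nonneg_left
        (Tw_act hB0 hB (o z0)) (by positivity)))).2 _ _ hc0 (AX.Good.plus hC.β0.le h1)
    have h3 := (AX.GoodOp.plus hC.β0.le (goodOp_scalar (β := β) (Z := F) (E := Sp n Y)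
      zero_le_one
      (fun z => ((d z : ℝ) : ℂ)) (fun z => by
        have h3 := (hS z (hFS z.2)).2.1
        rw [Complex.norm_real, Real.norm_eq_abs, abs_of_pos h3.2.2.2.2.1]
        exact h3.2.2.2.2.2.1))).2 _ _ (by positivity) h2
    have hsrc : GoodP β (Real.exp (2 * 16 ^ r * B) * (R * geo κ Λ ρ σ r J + 1))
        (fun z : F => ((d z : ℝ) : ℂ) •
          lin (circ (Letter.flt G δ (z : Cube n)) w z (Tw T (o z0))) (φ z)) := by
      have h4 := h3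
      rw [one_mul] at h4
      simpa using h4
    have h0' := (hS z0 (hFS hz0)).2.1
    obtain ⟨hA', hfew'⟩ := h0'.2.2.1
    have hv : GoodP β ((R + (κ / 4)⁻¹ * (Real.exp (2 * 16 ^ r * B) *
        (R * geo κ Λ ρ σ r J + 1))) * geo κ Λ ρ σ r J + 1) (fun z : F => v z) := by
      refine goodP_source hC.β0.le hg (by positivity) fun cu' hcu' => ?_
      exact famF (α := α) (θ := e' z0 + κ / 2) hC hD w hw hr (a' z0) h0'.2.1 hR
        ⟨hA', hfew'⟩ (Z := F) (fun z => (z : Cube n)) Subtype.val_injective (fun z => a' z)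
        (fun z => (hS z (hFS z.2)).2.1.2.1) (bx (cell (a' z0))) (hN.b0 _) (hN.b1 _)
        (fun z => hN.c2 _ (hS z (hFS z.2)).2.1.1 _ h0'.1 (hS z (hFS z.2)).2.1.2.1 h0'.2.1
          (hk z).2.2.1)
        (fun z => e' z)
        (e' z0) (fun z => hN.s2 _ _ (hk z).2.2.2) (by linarith) (fun z => v z) _
        (fun z => (hS z (hFS z.2)).2.1.2.2.2.2.2.2.1) (hsrc cu' hcu') (fun z => by
          rw [(hS z (hFS z.2)).2.1.2.2.2.2.2.2.2, (hk z).2.1])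
    exact l2_NR hD hC.β0.le (fun z : F => (z : Cube n)) hBl w hw hr (by positivity) hv

/-- assignments which are not good -/
theorem count_bad (hC : Consts κ Λ ε δ ν ρ σ β R n k J r) (hD : Std ε δ ν t r G)
    (w : Fin p → List (Letter n m Y))
    (T : Fin q → List (Gate n p Y)) (hw : ∀ i, ∀ l ∈ w i, l.Ok t r G)
    (hr : ∀ i, (w i).length ≤ r) (hT : ∀ j, ∀ c ∈ T j, c.Ok) {B : ℝ} (hB0 : 0 ≤ B)
    (hB : ∀ j, act (T j) ≤ B) (hR : (2 : ℝ) ^ (α * n) ≤ R ^ 2)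
    (hN : Nets A Λ ρ σ r Ic Is cell bx ns) {η : ℝ} (hη : 0 < η) (S : Finset (Cube n))
    (hS : ∀ z ∈ S, ¬ GoodX α κ Λ δ η r A G w T z) :
    (S.card : ℝ) ≤ (Ic.card * Is.card : ℝ) *
      (4 * (β * (MR p r * (R * geo κ Λ ρ σ r J + 1))) ^ 2 / η ^ 2) +
      ((q + 1) * (Ic.card * Is.card) : ℝ) *
      (4 * (β * (AXc p r B * (R * geo κ Λ ρ σ r J + 1))) ^ 2 / η ^ 2) +
      (((Ic.card * Is.card) * ((q + 1) * (Ic.card * Is.card)) : ℝ)) *
      (4 * (β * (MR p r * ((R + (κ / 4)⁻¹ * (Real.exp (2 * 16 ^ r * B) *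
        (R * geo κ Λ ρ σ r J + 1))) * geo κ Λ ρ σ r J + 1))) ^ 2 / η ^ 2) := by
  classical
  obtain ⟨P0, hP0⟩ : ∃ P0 : Cube n → Prop, ∀ z, P0 z ↔
      ∃ (a : Fin p → ℝ) (e : ℝ) (v : Sp n Y), a ∈ A ∧ ∑ i, |a i| ≤ Λ ∧ ‖v‖ = 1 ∧
      lin (Ham Letter.av w a) v = (e : ℂ) • v ∧ Few α κ e (Ham Letter.av w a) ∧
      η < NR G δ w z v := ⟨_, fun _ => Iff.rfl⟩
  obtain ⟨P1, hP1⟩ : ∃ P1 : Cube n → Prop, ∀ z, P1 z ↔
      ∃ (a : Fin p → ℝ) (e f : ℝ) (φ : Sp n Y) (o : Option (Fin q)),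
      (a ∈ A ∧ ∑ i, |a i| ≤ Λ ∧ ‖φ‖ = 1 ∧
      lin (Ham (Letter.flt G δ z) w a) φ = (f : ℂ) • φ ∧
      Few α (κ / 2) e (Ham Letter.av w a) ∧ |f - e| ≤ κ / 8) ∧
      η < NX G δ r w z (Tw T o) φ := ⟨_, fun _ => Iff.rfl⟩
  have h0 := count0 hC hD w hw hr hR hN hη (S.filter P0) (fun z hz => by
    rw [mem_filter] at hz
    exact (hP0 z).1 hz.2)
  have h1 := count1 hC hD w T hw hr hT hB0 hB hR hN hη
    ((S.filter fun z => ¬ P0 z).filter P1) (fun z hz => by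
      rw [mem_filter] at hz
      exact (hP1 z).1 hz.2)
  have h2 := count2 hC hD w T hw hr hT hB0 hB hR hN hη
    ((S.filter fun z => ¬ P0 z).filter fun z => ¬ P1 z) (fun z hz => by
      rw [mem_filter, mem_filter] at hz
      by_contra hno
      refine hS z hz.1.1 ⟨fun a e v hm ha hv he hf => ?_,
        fun a e f φ hm ha hφ hf hfew hef o => ?_,
        fun a e f φ hm ha hφ hf hfew hef o a' e' d v hm' ha' hfew' he' hd0 hd1 hv heq => ?_⟩
      · by_contra hlt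
        exact hz.1.2 ((hP0 z).2 ⟨a, e, v, hm, ha, hv, he, hf, not_le.1 hlt⟩)
      · by_contra hlt
        exact hz.2 ((hP1 z).2 ⟨a, e, f, φ, o, ⟨hm, ha, hφ, hf, hfew, hef⟩, not_le.1 hlt⟩)
      · by_contra hlt
        exact hno ⟨a, e, f, φ, o, a', e', d, v, ⟨hm, ha, hφ, hf, hfew, hef⟩,
          ⟨hm', ha', hfew', he', hd0, hd1, hv, heq⟩, not_le.1 hlt⟩)
  have h3 := card_filter_add_card_filter_not (s := S) P0
  have h3' := card_filter_add_card_filter_not (s := S.filter fun z => ¬ P0 z) P1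
  have h4 : (S.card : ℝ) = ((S.filter P0).card : ℝ) +
      (((S.filter fun z => ¬ P0 z).filter P1).card : ℝ) +
      (((S.filter fun z => ¬ P0 z).filter fun z => ¬ P1 z).card : ℝ) := by
    rw [add_assoc]
    have h5 : (((S.filter fun z => ¬ P0 z).filter P1).card : ℝ) +
      (((S.filter fun z => ¬ P0 z).filter fun z => ¬ P1 z).card : ℝ) =
      ((S.filter fun z => ¬ P0 z).card : ℝ) := by exact_mod_cast h3'
    rw [h5]
    exact_mod_cast h3.symm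
  rw [h4]
  exact add_le_add (add_le_add h0 h1) h2

end Pool.Agent.H73.AZ
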