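import Pool.Agent.H86.AZ.Pen
import Pool.Agent.H73.AW.Let

/-! Bounds for letters. -/

namespace Pool.Agent.H73.AZ

open Finset Matrix Pool.Agent.H73.QA Pool.Agent.H73.AD

set_option linter.unusedSectionVars false

variable {n k m : ℕ} {Y : Type} [Fintype Y] [DecidableEq Y] {r : ℕ}

theorem lin_mul (A B : Op n Y) : lin (A * B) = lin A ∘ₗ lin B := by
  unfold lin
  exact toLpLin_mul 2 2 2 A B

theorem lin_one : lin (1 : Op n Y) = LinearMap.id := by
  unfold lin
  exact toLpLin_one 2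

theorem lin_add (A B : Op n Y) : lin (A + B) = lin A + lin B := by
  unfold lin
  exact map_add _ _ _

theorem lin_sub (A B : Op n Y) : lin (A - B) = lin A - lin B := by
  unfold lin
  exact map_sub _ _ _

theorem lin_smul (c : ℂ) (A : Op n Y) : lin (c • A) = c • lin A := by
  unfold lin
  exact map_smul _ _ _

theorem lin_sum {ι : Type} (s : Finset ι) (A : ι → Op n Y) :
    lin (∑ i ∈ s, A i) = ∑ i ∈ s, lin (A i) := by
  unfold lin
  exact map_sum _ _ _

theorem norm_lin_of_bdd {A : Op n Y} {a : ℝ} (ha : 0 ≤ a) (hA : Bdd A a) (u : Sp n Y) :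
    ‖lin A u‖ ≤ a * ‖u‖ := norm_of_bdd ha hA u

/-- the clause terms of the satisfied clauses -/
theorem op_pen (G : Fin m → Clause n k) (z : Cube n) (h : Fin m → Op n Y) :
    Letter.op G z (.pen h) = ∑ j, h j - vio G h z := by
  rw [eq_sub_iff_add_eq]
  show ∑ j ∈ univ.filter (fun j => ¬ Violates z (G j)), h j + vio G h z = _
  unfold vio
  rw [add_comm]
  exact sum_filter_add_sum_filter_not univ (fun j => Violates z (G j)) h

/-- standing assumptions on the formula -/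
structure Std (ε δ ν t : ℝ) (r : ℕ) (G : Fin m → Clause n k) : Prop where
  hm : 0 < m
  ε0 : 0 ≤ ε
  ε1 : ε ≤ 1
  ν0 : 0 ≤ ν
  ht : ε + ν < t
  hG : Typ ε δ ν G
  hR : TypR r δ ν G

variable {G : Fin m → Clause n k} {ε δ ν t β : ℝ}

theorem penOk_of {h : Fin m → Op n Y} (hl : (Letter.pen h : Letter n m Y).Ok t r G) :
    PenOk r G h := ⟨hl.1, fun j => (hl.2 j).1, fun j => (hl.2 j).2⟩

theorem norm_op_le (hS : Std ε δ ν t r G) (z : Cube n) {l : Letter n m Y} (hl : l.Ok t r G)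
    (u : Sp n Y) : ‖lin (l.op G z) u‖ ≤ 2 * ‖u‖ := by
  cases l with
  | fix D => exact AW.norm_op_le hS.hm hS.ε1 hS.hG z (l := AW.Letter.fix D) hl u
  | cost => exact AW.norm_op_le hS.hm hS.ε1 hS.hG z (l := AW.Letter.cost) trivial u
  | cls h => exact AW.norm_op_le hS.hm hS.ε1 hS.hG z (l := AW.Letter.cls h) hl u
  | pen h =>
    rw [op_pen, lin_sub, LinearMap.sub_apply]
    have h1 := norm_lin_of_bdd zero_le_one hl.1 u
    have h2 := norm_vio hS.hm hS.ε1 hS.hG (penOk_of hl) z u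
    have h3 := norm_sub_le (lin (∑ j, h j) u) (lin (vio G h z) u)
    linarith
  | orc D X =>
    have h1 := norm_lin_of_bdd zero_le_one (hl.2 z).1 u
    have h2 := norm_nonneg u
    show ‖lin (X z) u‖ ≤ 2 * ‖u‖
    linarith

theorem flt_pen_apply (G : Fin m → Clause n k) (δ : ℝ) (z : Cube n) (h : Fin m → Op n Y)
    (u : Sp n Y) : lin (Letter.flt G δ z (.pen h)) u =
      lin (∑ j, h j) u - lin (far δ z * vio G h z * far δ z) u := by
  show lin (∑ j, h j - far δ z * vio G h z * far δ z) u = _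
  rw [lin_sub, LinearMap.sub_apply]

theorem norm_far_le (δ : ℝ) (z : Cube n) (u : Sp n Y) : ‖lin (far δ z) u‖ ≤ ‖u‖ := by
  have h1 : lin (far δ z) u = dg (fun x => if x ∈ hball δ z then (0 : ℂ) else 1) u := by
    have := AW.lin_diag (Y := Y) (fun x : Cube n => if x ∈ hball δ z then (0 : ℂ) else 1)
    exact LinearMap.congr_fun this u
  rw [h1]
  have h2 := norm_dg_le (f := fun x => if x ∈ hball δ z then (0 : ℂ) else 1) zero_le_one
    (fun x => by split_ifs <;> simp) u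
  rwa [one_mul] at h2

theorem norm_flt_le (hS : Std ε δ ν t r G) (z : Cube n) {l : Letter n m Y} (hl : l.Ok t r G)
    (u : Sp n Y) : ‖lin (l.flt G δ z) u‖ ≤ 2 * ‖u‖ := by
  cases l with
  | fix D => exact AW.norm_flt_le hS.hm hS.ε1 hS.hG z (l := AW.Letter.fix D) hl u
  | cost => exact AW.norm_flt_le hS.hm hS.ε1 hS.hG z (l := AW.Letter.cost) trivial u
  | cls h => exact AW.norm_flt_le hS.hm hS.ε1 hS.hG z (l := AW.Letter.cls h) hl u
  | pen h =>
    rw [flt_pen_apply]
    have h1 := norm_lin_of_bdd zero_le_one hl.1 u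
    have h2 : ‖lin (far δ z * vio G h z * far δ z) u‖ ≤ ‖u‖ := by
      rw [lin_mul, lin_mul]
      exact (norm_far_le δ z _).trans ((norm_vio hS.hm hS.ε1 hS.hG (penOk_of hl) z _).trans
        (norm_far_le δ z u))
    have h3 := norm_sub_le (lin (∑ j, h j) u) (lin (far δ z * vio G h z * far δ z) u)
    linarith
  | orc D X =>
    have h1 := norm_lin_of_bdd zero_le_one hl.1 u
    have h2 := norm_nonneg u
    show ‖lin D u‖ ≤ 2 * ‖u‖
    linarith

theorem norm_av_le {l : Letter n m Y} (hl : l.Ok t r G) (u : Sp n Y) : ‖lin l.av u‖ ≤ ‖u‖ := by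
  cases l with
  | fix D =>
    have h1 := norm_lin_of_bdd zero_le_one hl u
    rwa [one_mul] at h1
  | cost =>
    show ‖lin (1 : Op n Y) u‖ ≤ _
    rw [lin_one]
    exact le_rfl
  | cls h =>
    have h1 := norm_lin_of_bdd zero_le_one hl.1 u
    rwa [one_mul] at h1
  | pen h =>
    have h1 := norm_lin_of_bdd zero_le_one hl.1 u
    rwa [one_mul] at h1
  | orc D X =>
    have h1 := norm_lin_of_bdd zero_le_one hl.1 u
    rwa [one_mul] at h1

theorem av_flt_le (hS : Std ε δ ν t r G) (z : Cube n) {l : Letter n m Y} (hl : l.Ok t r G)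
    (u : Sp n Y) :
    ‖lin l.av u - lin (l.flt G δ z) u‖ ≤ (ν + ε + 2 / Real.sqrt (2 ^ k)) * ‖u‖ := by
  have hs : 0 ≤ 2 / Real.sqrt (2 ^ k) := by positivity
  have h0 := hS.ε0
  have h0' := hS.ν0
  cases l with
  | fix D =>
    show ‖lin D u - lin D u‖ ≤ _
    rw [sub_self, norm_zero]
    positivity
  | cost =>
    exact AW.av_flt_le hS.hm hS.ε0 hS.ε1 hS.ν0 hS.hG z (l := AW.Letter.cost) trivial u
  | cls h =>
    exact AW.av_flt_le hS.hm hS.ε0 hS.ε1 hS.ν0 hS.hG z (l := AW.Letter.cls h) hl u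
  | pen h =>
    rw [flt_pen_apply]
    show ‖lin (∑ j, h j) u - _‖ ≤ _
    rw [sub_sub_cancel]
    refine (norm_far_vio hS.hm hS.hR hS.ν0 (penOk_of hl) z u).trans
      (mul_le_mul_of_nonneg_right (by linarith) (norm_nonneg _))
  | orc D X =>
    show ‖lin D u - lin D u‖ ≤ _
    rw [sub_self, norm_zero]
    positivity

theorem LV_nonneg (G : Fin m → Clause n k) (δ : ℝ) (z : Cube n) (l : Letter n m Y)
    (v : Sp n Y) : 0 ≤ LV G δ z l v := by
  cases l with
  | fix D => exact le_refl (0 : ℝ)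
  | cost => exact le_refl (0 : ℝ)
  | cls h => exact le_refl (0 : ℝ)
  | pen h => exact norm_nonneg _
  | orc D X => exact le_refl (0 : ℝ)

theorem flt_op_le (hS : Std ε δ ν t r G) (z : Cube n) {l : Letter n m Y} (hl : l.Ok t r G)
    (u : Sp n Y) :
    ‖lin (l.flt G δ z) u - lin (l.op G z) u‖ ≤ 2 * ‖nearP (hball δ z) u‖ + LV G δ z l u := by
  cases l with
  | fix D =>
    have h1 := AW.flt_op_le (δ := δ) hS.hm hS.ε1 hS.hG z (AW.Letter.fix D) u
    exact h1.trans (le_of_eq (add_zero _).symm)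
  | cost =>
    have h1 := AW.flt_op_le (δ := δ) hS.hm hS.ε1 hS.hG z (AW.Letter.cost) u
    exact h1.trans (le_of_eq (add_zero _).symm)
  | cls h =>
    have h1 := AW.flt_op_le (δ := δ) hS.hm hS.ε1 hS.hG z (AW.Letter.cls h) u
    exact h1.trans (le_of_eq (add_zero _).symm)
  | pen h => exact pen_diff hS.hm hS.ε1 hS.hG (penOk_of hl) z u
  | orc D X =>
    have h1 := orc_diff hS.hm hS.hG hS.ht hl z u
    exact h1.trans (le_of_eq (add_zero _).symm)

theorem goodOp_flt (hS : Std ε δ ν t r G) {Z : Type} [Fintype Z] (hβ : 0 ≤ β) (ζ : Z → Cube n)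
    (hB : ∀ x, ((univ.filter fun z => x ∈ hball δ (ζ z)).card : ℝ) ≤ β ^ 2)
    {l : Letter n m Y} (hl : l.Ok t r G) : GoodOp β 16 fun z => lin (l.flt G δ (ζ z)) := by
  cases l with
  | fix D =>
    exact (AW.goodOp_flt hS.hm hS.ε1 hS.hG hβ ζ hB (l := AW.Letter.fix D) hl).mono hβ
      (by norm_num)
  | cost =>
    exact (AW.goodOp_flt hS.hm hS.ε1 hS.hG hβ ζ hB (l := AW.Letter.cost) trivial).mono hβ
      (by norm_num)
  | cls h =>
    exact (AW.goodOp_flt hS.hm hS.ε1 hS.hG hβ ζ hB (l := AW.Letter.cls h) hl).mono hβ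
      (by norm_num)
  | pen h => exact goodOp_pen hS.hm hS.ε1 hS.hG hS.hR hβ ζ hB (penOk_of hl)
  | orc D X =>
    exact (goodOp_fixed (β := β) (Z := Z) zero_le_one (lin D)
      (norm_lin_of_bdd zero_le_one hl.1)).mono hβ (by norm_num)

end Pool.Agent.H73.AZ
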