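import Pool.Agent.H73.AZ.Stmt
import Pool.Agent.H73.AD.Flat

/-! Flattened letters, the near functional, and good assignments. -/

namespace Pool.Agent.H73.AZ

open Finset Matrix Pool.Agent.H73.QA Pool.Agent.H73.AD

variable {n k m p q : ℕ} {Y : Type} [Fintype Y] [DecidableEq Y]

/-- the linear map of a matrix -/
noncomputable def lin (A : Op n Y) : Sp n Y →ₗ[ℂ] Sp n Y := toLpLin 2 2 A

/-- further properties of typical formulas -/
structure TypR (r : ℕ) (δ ν : ℝ) (G : Fin m → Clause n k) : Prop where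
  t3 : ∀ x, ((univ.filter fun j => tl x (G j) ≤ r).card : ℝ) ≤ 2 * (k + 1) ^ r * (m / 2 ^ k)
  t4 : ∀ z x : Cube n, x ∉ hball δ z →
    ((univ.filter fun j => Violates z (G j) ∧ tl x (G j) ≤ r).card : ℝ) ≤ ν * (m / 2 ^ k)

/-- the clause terms of the clauses violated by `z` -/
noncomputable def vio (G : Fin m → Clause n k) (h : Fin m → Op n Y) (z : Cube n) : Op n Y :=
  ∑ j ∈ univ.filter (fun j => Violates z (G j)), h j

/-- projection to the assignments outside of the ball -/
noncomputable def far (δ : ℝ) (z : Cube n) : Op n Y :=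
  diagonal fun x => if x.1 ∈ hball δ z then 0 else 1

/-- flattened letters -/
noncomputable def Letter.flt (G : Fin m → Clause n k) (δ : ℝ) (z : Cube n) :
    Letter n m Y → Op n Y
  | .fix D => D
  | .cost => diagonal fun x =>
      ((2 ^ k / m * (viol G x.1 - if x.1 ∈ hball δ z then 0 else (Wn G z x.1 : ℝ)) : ℝ) : ℂ)
  | .cls h => ∑ j ∈ univ.filter (fun j => ¬ Violates z (G j)), h j
  | .pen h => ∑ j, h j - far δ z * vio G h z * far δ z
  | .orc D _ => D

/-- adjoint letters -/
noncomputable def Letter.adj : Letter n m Y → Letter n m Y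
  | .fix D => .fix Dᴴ
  | .cost => .cost
  | .cls h => .cls fun j => (h j)ᴴ
  | .pen h => .pen fun j => (h j)ᴴ
  | .orc D X => .orc Dᴴ fun z => (X z)ᴴ

/-- adjoint words -/
noncomputable def adjW (w : List (Letter n m Y)) : List (Letter n m Y) := (w.map Letter.adj).reverse

/-- evaluation of words -/
noncomputable def wd (f : Letter n m Y → Op n Y) (w : List (Letter n m Y)) : Op n Y := (w.map f).prod

/-- the near part of the image under the violated clause terms -/
noncomputable def LV (G : Fin m → Clause n k) (δ : ℝ) (z : Cube n) : Letter n m Y → Sp n Y → ℝ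
  | .fix _, _ => 0
  | .cost, _ => 0
  | .cls _, _ => 0
  | .pen h, v => ‖nearP (hball δ z) (lin (vio G h z) v)‖
  | .orc _ _, _ => 0

/-- the near parts of the images of `u` under the suffixes of a word -/
noncomputable def NW (G : Fin m → Clause n k) (δ : ℝ) (z : Cube n) :
    List (Letter n m Y) → Sp n Y → ℝ
  | [], u => ‖nearP (hball δ z) u‖
  | l :: w, u => NW G δ z w u + (LV G δ z l (lin (wd (Letter.flt G δ z) w) u) +
      ‖nearP (hball δ z) (lin (wd (Letter.flt G δ z) (l :: w)) u)‖)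

/-- the words of the Hamiltonians and their adjoints -/
noncomputable def aw (w : Fin p → List (Letter n m Y)) :
    Option (Fin p ⊕ Fin p) → List (Letter n m Y)
  | none => []
  | some x => Sum.elim w (fun i => adjW (w i)) x

/-- the near functional -/
noncomputable def NR (G : Fin m → Clause n k) (δ : ℝ) (w : Fin p → List (Letter n m Y))
    (z : Cube n) (u : Sp n Y) : ℝ :=
  ∑ x : Option (Fin p ⊕ Fin p), NW G δ z (aw w x) u

/-- bound for the difference of the flattened and the actual circuit -/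
noncomputable def ER (G : Fin m → Clause n k) (δ : ℝ) (r : ℕ) (w : Fin p → List (Letter n m Y))
    (z : Cube n) : List (Gate n p Y) → Sp n Y → ℝ
  | [], _ => 0
  | .fix _ :: C, v => ER G δ r w z C v
  | .ev a :: C, v => ER G δ r w z C v + (∑ i, |a i z|) * 4 ^ (r + 1) *
      ∫ s in (0 : ℝ)..1, NR G δ w z (lin (NormedSpace.exp ((-Complex.I * s) •
        Ham (Letter.flt G δ z) w fun i => a i z)) (lin (circ (Letter.flt G δ z) w z C) v))

/-- identity or one of the circuits -/
def Tw (T : Fin q → List (Gate n p Y)) : Option (Fin q) → List (Gate n p Y)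
  | none => []
  | some j => T j

/-- the functional of a circuit -/
noncomputable def NX (G : Fin m → Clause n k) (δ : ℝ) (r : ℕ) (w : Fin p → List (Letter n m Y))
    (z : Cube n) (C : List (Gate n p Y)) (v : Sp n Y) : ℝ :=
  NR G δ w z v + (ER G δ r w z C v + NR G δ w z (lin (circ (Letter.flt G δ z) w z C) v))

/-- good assignments -/
structure GoodX (α κ Λ δ η : ℝ) (r : ℕ) (A : Set (Fin p → ℝ)) (G : Fin m → Clause n k)
    (w : Fin p → List (Letter n m Y)) (T : Fin q → List (Gate n p Y)) (z : Cube n) : Prop where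
  g0 : ∀ (a : Fin p → ℝ) (e : ℝ) (v : Sp n Y), a ∈ A → ∑ i, |a i| ≤ Λ → ‖v‖ = 1 →
    lin (Ham Letter.av w a) v = (e : ℂ) • v → Few α κ e (Ham Letter.av w a) →
    NR G δ w z v ≤ η
  g1 : ∀ (a : Fin p → ℝ) (e f : ℝ) (φ : Sp n Y), a ∈ A → ∑ i, |a i| ≤ Λ → ‖φ‖ = 1 →
    lin (Ham (Letter.flt G δ z) w a) φ = (f : ℂ) • φ → Few α (κ / 2) e (Ham Letter.av w a) →
    |f - e| ≤ κ / 8 → ∀ o : Option (Fin q), NX G δ r w z (Tw T o) φ ≤ η
  g2 : ∀ (a : Fin p → ℝ) (e f : ℝ) (φ : Sp n Y), a ∈ A → ∑ i, |a i| ≤ Λ → ‖φ‖ = 1 →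
    lin (Ham (Letter.flt G δ z) w a) φ = (f : ℂ) • φ → Few α (κ / 2) e (Ham Letter.av w a) →
    |f - e| ≤ κ / 8 →
    ∀ (o : Option (Fin q)) (a' : Fin p → ℝ) (e' d : ℝ) (v : Sp n Y), a' ∈ A → ∑ i, |a' i| ≤ Λ →
    Few α (κ / 2) e' (Ham Letter.av w a') → |e'| ≤ Λ * 2 ^ (r + 1) → 0 < d → d ≤ 1 → ‖v‖ ≤ 1 →
    lin (Ham (Letter.flt G δ z) w a') v - (e' : ℂ) • v =
      (d : ℂ) • lin (circ (Letter.flt G δ z) w z (Tw T o)) φ → NR G δ w z v ≤ η

end Pool.Agent.H73.AZ
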