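import Pool.Agent.H73.AZ.Bad
import Pool.Agent.H73.AW.Num

/-! Choice of the parameters. -/

namespace Pool.Agent.H73.AZ

open Finset Matrix Pool.Agent.H73.QA Pool.Agent.H73.AD

/-- the constants of the argument -/
theorem params {e1 κ Λ : ℝ} (r : ℕ) (he : 0 < e1) (hκ : 0 < κ) (hΛ : 0 ≤ Λ) :
    ∃ (Q : ℕ) (σ K1 : ℝ), 1 ≤ Q ∧ 0 < σ ∧ σ ≤ 1 ∧ 1 ≤ K1 ∧ K1 ≤ 2 ^ (e1 * Q) ∧
      (κ / 4)⁻¹ * (16 ^ r * (4 * Λ + 12 * (σ / 8)) + 2 * σ) ≤ K1 ∧
      (κ / 4)⁻¹ * (3 * σ) ≤ 2 ^ (-(Q : ℝ) / 2) := by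
  obtain ⟨K1, hK1⟩ : ∃ K1 : ℝ, K1 = (κ / 4)⁻¹ * (16 ^ r * (4 * Λ + 2) + 2) + 1 := ⟨_, rfl⟩
  have hκ8 : 0 < (κ / 4)⁻¹ := by positivity
  have hK : 1 ≤ K1 := by
    rw [hK1]
    have : 0 ≤ (κ / 4)⁻¹ * (16 ^ r * (4 * Λ + 2) + 2) := by positivity
    linarith
  obtain ⟨Q, hQ⟩ := exists_nat_ge (max 1 (Real.logb 2 K1 / e1))
  have hQ1 : (1 : ℝ) ≤ Q := (le_max_left _ _).trans hQ
  have hQ2 : Real.logb 2 K1 / e1 ≤ Q := (le_max_right _ _).trans hQ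
  have hpow : 0 < (2 : ℝ) ^ (-(Q : ℝ) / 2) := Real.rpow_pos_of_pos two_pos _
  obtain ⟨σ, hσ⟩ : ∃ σ : ℝ, σ = min 1 (κ / 12 * 2 ^ (-(Q : ℝ) / 2)) := ⟨_, rfl⟩
  have hσ0 : 0 < σ := by rw [hσ]; exact lt_min one_pos (by positivity)
  have hσ1 : σ ≤ 1 := by rw [hσ]; exact min_le_left _ _
  have hσ2 : σ ≤ κ / 12 * 2 ^ (-(Q : ℝ) / 2) := by rw [hσ]; exact min_le_right _ _
  refine ⟨Q, σ, K1, by exact_mod_cast hQ1, hσ0, hσ1, hK, ?_, ?_, ?_⟩
  · rw [div_le_iff₀ he] at hQ2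
    have h1 : K1 = 2 ^ Real.logb 2 K1 :=
      (Real.rpow_logb two_pos (by norm_num) (by linarith)).symm
    calc K1 = 2 ^ Real.logb 2 K1 := h1
      _ ≤ 2 ^ (e1 * Q) := Real.rpow_le_rpow_of_exponent_le one_le_two (by linarith)
  · rw [hK1]
    have h8 : (0 : ℝ) < 16 ^ r := by positivity
    have h9 : (16 : ℝ) ^ r * (4 * Λ + 12 * (σ / 8)) ≤ 16 ^ r * (4 * Λ + 2) :=
      mul_le_mul_of_nonneg_left (by linarith) h8.le
    have : (κ / 4)⁻¹ * (16 ^ r * (4 * Λ + 12 * (σ / 8)) + 2 * σ) ≤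
        (κ / 4)⁻¹ * (16 ^ r * (4 * Λ + 2) + 2) :=
      mul_le_mul_of_nonneg_left (by linarith) hκ8.le
    linarith
  · calc (κ / 4)⁻¹ * (3 * σ) ≤ (κ / 4)⁻¹ * (3 * (κ / 12 * 2 ^ (-(Q : ℝ) / 2))) := by gcongr
      _ = 2 ^ (-(Q : ℝ) / 2) := by field_simp; ring

theorem geo_le {e1 κ Λ ρ σ K1 : ℝ} {Q : ℕ} (n r : ℕ) (hκ : 0 < κ) (hΛ : 0 ≤ Λ)
    (hρ0 : 0 ≤ ρ) (hσ : 0 ≤ σ) (hK1 : 1 ≤ K1) (hQ : K1 ≤ 2 ^ (e1 * Q))
    (he : 0 ≤ e1)
    (hK : (κ / 4)⁻¹ * (16 ^ r * (4 * Λ + 12 * ρ) + 2 * σ) ≤ K1)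
    (hn : (n : ℝ) + 1 ≤ 2 ^ (e1 * n)) :
    geo κ Λ ρ σ r (n / Q + 1) + 1 ≤ 2 * K1 * 2 ^ ((2 * e1) * n) := by
  have h0 : 0 ≤ (κ / 4)⁻¹ * (16 ^ r * (4 * Λ + 12 * ρ) + 2 * σ) := by
    positivity
  have h2 : geo κ Λ ρ σ r (n / Q + 1) ≤ ((n / Q + 1 : ℕ) : ℝ) * K1 ^ (n / Q + 1) := by
    unfold geo
    calc _ ≤ ∑ _j ∈ range (n / Q + 1), K1 ^ (n / Q + 1) := by
          refine sum_le_sum fun j hj => ?_
          rw [mem_range] at hj
          exact (pow_le_pow_left₀ h0 hK j).trans (pow_le_pow_right₀ hK1 hj.le)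
      _ = _ := by rw [sum_const, card_range, nsmul_eq_mul]
  have h3 : K1 ^ (n / Q + 1) ≤ K1 * 2 ^ (e1 * n) := by
    rw [pow_succ, mul_comm]
    refine mul_le_mul_of_nonneg_left ?_ (by linarith)
    calc K1 ^ (n / Q) ≤ ((2 : ℝ) ^ (e1 * Q)) ^ (n / Q) := pow_le_pow_left₀ (by linarith) hQ _
      _ = 2 ^ (e1 * Q * ((n / Q : ℕ) : ℝ)) := by
          rw [← Real.rpow_natCast, ← Real.rpow_mul two_pos.le]
      _ ≤ _ := by
          refine Real.rpow_le_rpow_of_exponent_le one_le_two ?_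
          have h4 : Q * (n / Q) ≤ n := Nat.mul_div_le n Q
          have h5 : (Q : ℝ) * ((n / Q : ℕ) : ℝ) ≤ n := by exact_mod_cast h4
          rw [mul_assoc]
          exact mul_le_mul_of_nonneg_left h5 he
  have h4 : ((n / Q + 1 : ℕ) : ℝ) ≤ 2 ^ (e1 * n) := by
    refine le_trans ?_ hn
    have : n / Q ≤ n := Nat.div_le_self n Q
    have h5 : ((n / Q : ℕ) : ℝ) ≤ n := by exact_mod_cast this
    push_cast
    linarith
  have h5 : geo κ Λ ρ σ r (n / Q + 1) ≤ K1 * 2 ^ ((2 * e1) * n) := by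
    calc _ ≤ _ := h2
      _ ≤ 2 ^ (e1 * n) * (K1 * 2 ^ (e1 * n)) :=
          mul_le_mul h4 h3 (by positivity) (by positivity)
      _ = K1 * (2 ^ (e1 * n) * 2 ^ (e1 * n)) := by ring
      _ = _ := by rw [rpow_add_n]; congr 2; ring
  have h6 : (1 : ℝ) ≤ K1 * 2 ^ ((2 * e1) * n) := by
    have h7 : (1 : ℝ) ≤ 2 ^ ((2 * e1) * n) :=
      Real.one_le_rpow one_le_two (by positivity)
    nlinarith
  linarith

/-- the sum of the three counts -/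
theorem sum_counts {N q β η R g κ MRv AXv E : ℝ} (hN : 0 ≤ N) (hq : 0 ≤ q) (hβ : 0 ≤ β)
    (hR : 0 ≤ R) (hg : 0 ≤ g) (hκ : 0 < κ) (hMR0 : 0 ≤ MRv) (hMR : MRv ≤ AXv) (hE0 : 0 ≤ E)
    (hE : E ≤ AXv) :
    N * (4 * (β * (MRv * (R * g + 1))) ^ 2 / η ^ 2) +
      ((q + 1) * N) * (4 * (β * (AXv * (R * g + 1))) ^ 2 / η ^ 2) +
      (N * ((q + 1) * N)) *
      (4 * (β * (MRv * ((R + (κ / 4)⁻¹ * (E * (R * g + 1))) * g + 1))) ^ 2 / η ^ 2) ≤
    (N * (q + 1)) * (4 * (β ^ 2 * (AXv * (R * g + 1)) ^ 2) / η ^ 2) +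
      (N * (q + 1)) * (4 * (β ^ 2 * (AXv * (R * g + 1)) ^ 2) / η ^ 2) +
      (N * ((q + 1) * N) * (q + 1)) *
        (4 * (β ^ 2 * (AXv * ((R + (κ / 4)⁻¹ * (AXv * (R * g + 1))) * g + 1)) ^ 2) / η ^ 2) := by
  have hAX : 0 ≤ AXv := hMR0.trans hMR
  have h1 : 4 * (β * (MRv * (R * g + 1))) ^ 2 / η ^ 2 ≤
      4 * (β ^ 2 * (AXv * (R * g + 1)) ^ 2) / η ^ 2 := by
    rw [mul_pow β]
    gcongr
  have h2 : 4 * (β * (AXv * (R * g + 1))) ^ 2 / η ^ 2 =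
      4 * (β ^ 2 * (AXv * (R * g + 1)) ^ 2) / η ^ 2 := by
    rw [mul_pow β]
  have h3 : 4 * (β * (MRv * ((R + (κ / 4)⁻¹ * (E * (R * g + 1))) * g + 1))) ^ 2 / η ^ 2 ≤
      4 * (β ^ 2 * (AXv * ((R + (κ / 4)⁻¹ * (AXv * (R * g + 1))) * g + 1)) ^ 2) / η ^ 2 := by
    rw [mul_pow β]
    gcongr
  rw [h2]
  obtain ⟨X, hX⟩ : ∃ X, X = 4 * (β ^ 2 * (AXv * (R * g + 1)) ^ 2) / η ^ 2 := ⟨_, rfl⟩
  obtain ⟨W, hW⟩ : ∃ W, W = 4 * (β ^ 2 * (AXv *
    ((R + (κ / 4)⁻¹ * (AXv * (R * g + 1))) * g + 1)) ^ 2) / η ^ 2 := ⟨_, rfl⟩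
  rw [← hX, ← hW]
  rw [← hX] at h1
  rw [← hW] at h3
  have hX0 : 0 ≤ X := by rw [hX]; positivity
  have hW0 : 0 ≤ W := by rw [hW]; positivity
  refine add_le_add (add_le_add ?_ (le_of_eq (by ring))) ?_
  · calc _ ≤ N * X := mul_le_mul_of_nonneg_left h1 hN
      _ ≤ (N * (q + 1)) * X := by
        refine mul_le_mul_of_nonneg_right ?_ hX0
        nlinarith
  · have h4 : 0 ≤ N * ((q + 1) * N) := by positivity
    calc _ ≤ (N * ((q + 1) * N)) * W := mul_le_mul_of_nonneg_left h3 h4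
      _ ≤ (N * ((q + 1) * N) * (q + 1)) * W := by
        refine mul_le_mul_of_nonneg_right ?_ hW0
        nlinarith

theorem ax_bounds {p r : ℕ} {A : ℝ} (hA : 0 ≤ A) :
    MR p r ≤ AXc p r A ∧ Real.exp (2 * 16 ^ r * A) ≤ AXc p r A := by
  have h1 := MR_one_le p r
  have h2 : 1 ≤ Real.exp (2 * 16 ^ r * A) := Real.one_le_exp (by positivity)
  have h3 : 1 ≤ 2 + A * 4 ^ (r + 1) := by
    have : 0 ≤ A * 4 ^ (r + 1) := by positivity
    linarith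
  unfold AXc
  generalize MR p r = M at *
  generalize Real.exp (2 * 16 ^ r * A) = E at *
  generalize 2 + A * 4 ^ (r + 1) = B at *
  have h4 : 1 ≤ E * B := by nlinarith
  have h5 : E ≤ E * B := by nlinarith
  constructor
  · nlinarith
  · nlinarith

variable {p r : ℕ}

theorem le_two_rpow {x : ℝ} : x ≤ 2 ^ x := by
  rcases le_or_gt x 0 with hx | hx
  · exact hx.trans (Real.rpow_pos_of_pos two_pos x).le
  · have h1 : x + 1 ≤ Real.exp x := Real.add_one_le_exp x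
    have h2 : 1 + (x : ℝ) * 1 ≤ (1 + 1) ^ x ∨ x < 1 := by
      rcases le_or_gt 1 x with h | h
      · left
        have := one_add_mul_self_le_rpow_one_add (s := 1) (by norm_num) h
        simpa using this
      · right; exact h
    rcases h2 with h | h
    · have h3 : (1 + 1 : ℝ) = 2 := by norm_num
      rw [h3] at h
      linarith
    · have h3 : (1 : ℝ) ≤ 2 ^ x := Real.one_le_rpow one_le_two hx.le
      linarith

theorem ax_le {p r : ℕ} {c e : ℝ} {n : ℕ} (hc0 : 0 ≤ c) (hc : c ≤ e / (512 * 16 ^ r))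
    (hp : (p : ℝ) ≤ 2 ^ (c * n))
    (h1 : (6 * (r + 1) * 16 ^ r) * ((n : ℝ) + 1) ≤ 2 ^ (e / 512 * n))
    (h2 : (2 + c * 4 ^ (r + 1)) * ((n : ℝ) + 1) ≤ 2 ^ (e / 256 * n)) :
    AXc p r (c * n) ≤ 2 ^ (e / 64 * n) := by
  have hn : (0 : ℝ) ≤ n := Nat.cast_nonneg n
  have h16 : (1 : ℝ) ≤ 16 ^ r := one_le_pow₀ (by norm_num)
  have h4 : c * (512 * 16 ^ r) ≤ e := by
    rwa [le_div_iff₀ (by positivity)] at hc
  have he : 0 ≤ e := by
    have : 0 ≤ c * (512 * 16 ^ r) := by positivity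
    linarith
  have h40 : c ≤ e / 512 := by
    rw [le_div_iff₀ (by norm_num)]
    nlinarith
  have k1 : MR p r ≤ 2 ^ (e / 256 * n) := by
    unfold MR
    have h3 : (1 : ℝ) ≤ 2 ^ (c * n) := Real.one_le_rpow one_le_two (by positivity)
    have h5 : (2 : ℝ) * p + 1 ≤ 3 * 2 ^ (c * n) := by linarith
    have h6 : (2 : ℝ) ^ (c * n) ≤ 2 ^ (e / 512 * n) :=
      Real.rpow_le_rpow_of_exponent_le one_le_two (mul_le_mul_of_nonneg_right h40 hn)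
    have h7 : 6 * ((r : ℝ) + 1) * 16 ^ r ≤ 2 ^ (e / 512 * n) := by
      refine le_trans ?_ h1
      have : 0 ≤ 6 * ((r : ℝ) + 1) * 16 ^ r := by positivity
      nlinarith
    calc (2 * (p : ℝ) + 1) * (2 * (r + 1) * 16 ^ r) ≤
          (3 * 2 ^ (c * n)) * (2 * (r + 1) * 16 ^ r) :=
          mul_le_mul_of_nonneg_right h5 (by positivity)
      _ = 2 ^ (c * n) * (6 * ((r : ℝ) + 1) * 16 ^ r) := by ring
      _ ≤ 2 ^ (e / 512 * n) * 2 ^ (e / 512 * n) :=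
          mul_le_mul h6 h7 (by positivity) (by positivity)
      _ = 2 ^ (e / 256 * n) := by
          rw [rpow_add_n]
          congr 2
          ring
  have k2 : 2 + c * n * 4 ^ (r + 1) ≤ 2 ^ (e / 256 * n) := by
    refine le_trans ?_ h2
    have h3 : 0 ≤ c * 4 ^ (r + 1) := by positivity
    nlinarith
  have k3 : Real.exp (2 * 16 ^ r * (c * n)) ≤ 2 ^ (e / 128 * n) := by
    rw [Real.rpow_def_of_pos two_pos]
    refine Real.exp_le_exp.2 ?_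
    have h3 : (1 : ℝ) / 2 ≤ Real.log 2 := by
      have := Real.log_two_gt_d9
      linarith
    have h5 : 2 * 16 ^ r * (c * n) = (c * (512 * 16 ^ r)) * n / 256 := by ring
    rw [h5]
    have h6 : (c * (512 * 16 ^ r)) * n ≤ e * n := mul_le_mul_of_nonneg_right h4 hn
    have h7 : 0 ≤ e / 128 * n := by positivity
    have h8 : 1 / 2 * (e / 128 * n) ≤ Real.log 2 * (e / 128 * n) :=
      mul_le_mul_of_nonneg_right h3 h7
    linarith
  have hMR : 0 ≤ MR p r := zero_le_one.trans (MR_one_le p r)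
  unfold AXc
  calc MR p r * (Real.exp (2 * 16 ^ r * (c * n)) * (2 + c * n * 4 ^ (r + 1))) ≤
        2 ^ (e / 256 * n) * (2 ^ (e / 128 * n) * 2 ^ (e / 256 * n)) := by
        refine mul_le_mul k1 (mul_le_mul k3 k2 (by positivity) (by positivity)) (by positivity)
          (by positivity)
    _ = 2 ^ (e / 64 * n) := by
        rw [rpow_add_n, rpow_add_n]
        congr 2
        ring

/-- nets for few words -/
theorem nets_few {A : Set (Fin p → ℝ)} {Λ σ e c : ℝ} {n : ℕ} {Is : Finset ℤ} {ns : ℝ → ℤ}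
    (hΛ : 0 ≤ Λ) (hσ : 0 < σ) (he : 0 ≤ e) (hc0 : 0 ≤ c)
    (hcs : c ≤ e / 16 / (8 * Λ / σ + 2)) (hp : (p : ℝ) ≤ c * n)
    (hs1 : ∀ x, -(Λ * 2 ^ (r + 1)) ≤ x → x ≤ Λ * 2 ^ (r + 1) → ns x ∈ Is)
    (hs2 : ∀ x y, ns x = ns y → |x - y| ≤ σ) :
    ∃ (K : Type) (_ : DecidableEq K) (Ic : Finset K) (cell : (Fin p → ℝ) → K)
      (bx : K → Fin p → ℝ), Nets A Λ (σ / 8) σ r Ic Is cell bx ns ∧
      (Ic.card : ℝ) ≤ 2 * 2 ^ (e / 16 * n) := by
  obtain ⟨L, hL⟩ : ∃ L : ℕ, L = ⌈Λ * p / (σ / 8)⌉₊ := ⟨_, rfl⟩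
  obtain ⟨cell, hc1, hc2⟩ := exists_cell (Λ := Λ) (ρ := σ / 8) (by linarith) p L
    (by rw [hL]; exact Nat.le_ceil _)
  have hρ8 : 0 < 8 * Λ / σ + 2 := by positivity
  refine ⟨Fin p → ℤ, inferInstance, cells p L, cell, fun _ _ => 2 * (σ / 8) / p,
    ⟨fun a _ ha => hc1 a ha, fun a _ a' _ _ _ h => hc2 a a' h, fun _ _ => by positivity,
      fun _ => ?_, fun x hx => ?_, hs2⟩, ?_⟩
  · have h1 := sum_of_cell (ρ := σ / 8) (by linarith) (p := p)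
      (a := fun _ => 2 * (σ / 8) / p) (a' := fun _ => 0) (fun i => by
        rw [sub_zero, abs_of_nonneg (by positivity)])
    refine le_trans (sum_le_sum fun i _ => ?_) h1
    rw [sub_zero]
    exact le_abs_self _
  · rw [abs_le] at hx
    exact hs1 x hx.1 hx.2
  · have hp2 : Λ * p / (σ / 8) + 2 * p ≤ e / 16 * n := by
      have h2 : Λ * p / (σ / 8) + 2 * p = (8 * Λ / σ + 2) * p := by field_simp
      rw [h2]
      have h3 : (p : ℝ) ≤ e / 16 / (8 * Λ / σ + 2) * n :=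
        hp.trans (mul_le_mul_of_nonneg_right hcs (Nat.cast_nonneg _))
      calc (8 * Λ / σ + 2) * p ≤ (8 * Λ / σ + 2) * (e / 16 / (8 * Λ / σ + 2) * n) :=
            mul_le_mul_of_nonneg_left h3 hρ8.le
        _ = _ := by field_simp
    have h2 : ((cells p L).card : ℝ) ≤ 2 ^ L * 3 ^ p := by exact_mod_cast cells_card p L
    have h3 : (2 : ℝ) ^ L * 3 ^ p ≤ 2 ^ (Λ * p / (σ / 8) + 1) * 2 ^ (2 * (p : ℝ)) := by
      refine mul_le_mul ?_ ?_ (by positivity) (by positivity)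
      · rw [← Real.rpow_natCast]
        refine Real.rpow_le_rpow_of_exponent_le one_le_two ?_
        rw [hL]
        exact (Nat.ceil_lt_add_one (by positivity)).le
      · rw [Real.rpow_mul two_pos.le, Real.rpow_natCast]
        exact pow_le_pow_left₀ (by norm_num) (by norm_num) p
    refine h2.trans (h3.trans ?_)
    rw [← Real.rpow_add two_pos]
    calc (2 : ℝ) ^ (Λ * p / (σ / 8) + 1 + 2 * p) ≤ 2 ^ (1 + e / 16 * n) :=
          Real.rpow_le_rpow_of_exponent_le one_le_two (by linarith)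
      _ = _ := by rw [Real.rpow_add two_pos, Real.rpow_one]

/-- nets for covered sets of coefficients -/
theorem nets_cov {A : Set (Fin p → ℝ)} {Λ σ e c : ℝ} {n : ℕ} {Is : Finset ℤ} {ns : ℝ → ℤ}
    (hσ : 0 < σ) (he : 0 ≤ e) (hc0 : 0 ≤ c) (hcσ : c ≤ σ / 8)
    (hce : c ≤ e / 16) (hA : Cov c n A)
    (hs1 : ∀ x, -(Λ * 2 ^ (r + 1)) ≤ x → x ≤ Λ * 2 ^ (r + 1) → ns x ∈ Is)
    (hs2 : ∀ x y, ns x = ns y → |x - y| ≤ σ) :
    ∃ (K : Type) (_ : DecidableEq K) (Ic : Finset K) (cell : (Fin p → ℝ) → K)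
      (bx : K → Fin p → ℝ), Nets A Λ (σ / 8) σ r Ic Is cell bx ns ∧
      (Ic.card : ℝ) ≤ 2 * 2 ^ (e / 16 * n) := by
  classical
  obtain ⟨N, x, b, hN, hb, hcov⟩ := hA
  have h0 : ∀ a : Fin p → ℝ, ∃ j : Option (Fin N), a ∈ A → ∃ j', j = some j' ∧
      ∀ i, |a i - x j' i| ≤ b j' i := by
    intro a
    by_cases ha : a ∈ A
    · obtain ⟨j, hj⟩ := hcov a ha
      exact ⟨some j, fun _ => ⟨j, rfl, hj⟩⟩
    · exact ⟨none, fun h => absurd h ha⟩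
  choose cell hcell using h0
  have hw : (1 : ℝ) ≤ 2 ^ (e / 16 * n) := Real.one_le_rpow one_le_two (by positivity)
  have hn : (0 : ℝ) ≤ n := Nat.cast_nonneg n
  obtain ⟨bx, hbx⟩ : ∃ bx : Option (Fin N) → Fin p → ℝ, bx = fun o i =>
      Option.elim o 0 fun j => if ∀ i, 0 ≤ b j i then 2 * b j i else 0 := ⟨_, rfl⟩
  refine ⟨Option (Fin N), inferInstance, univ, cell, bx,
    ⟨fun a _ _ => mem_univ _, fun a ha a' ha' _ _ h i => ?_, fun o i => ?_,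
      fun o => ?_, fun x hx => ?_, hs2⟩, ?_⟩
  · obtain ⟨j, hj, h1⟩ := hcell a ha
    obtain ⟨j', hj', h2⟩ := hcell a' ha'
    have hjj : j = j' := by
      rw [hj, hj'] at h
      exact Option.some.inj h
    subst hjj
    have h3 : ∀ i, 0 ≤ b j i := fun i => (abs_nonneg _).trans (h1 i)
    have h4 : bx (cell a') i = 2 * b j i := by
      rw [hbx, hj']
      show (if ∀ i, 0 ≤ b j i then 2 * b j i else 0) = _
      rw [if_pos h3]
    rw [h4]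
    have h5 := abs_sub_le (a i) (x j i) (a' i)
    have h6 := h1 i
    have h7 := h2 i
    rw [abs_sub_comm] at h7
    linarith
  · rw [hbx]
    cases o with
    | none => exact le_refl (0 : ℝ)
    | some j =>
      show 0 ≤ (if ∀ i, 0 ≤ b j i then 2 * b j i else 0)
      split_ifs with h
      · have := h i
        linarith
      · exact le_refl (0 : ℝ)
  · rw [hbx]
    cases o with
    | none =>
      show ∑ _i : Fin p, (0 : ℝ) ≤ _
      rw [sum_const_zero]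
      linarith
    | some j =>
      show ∑ i, (if ∀ i, 0 ≤ b j i then 2 * b j i else 0) ≤ _
      split_ifs with h
      · rw [← mul_sum]
        have := hb j
        linarith
      · rw [sum_const_zero]
        linarith
  · rw [abs_le] at hx
    exact hs1 x hx.1 hx.2
  · rw [card_univ, Fintype.card_option, Fintype.card_fin]
    push_cast
    have h1 : (2 : ℝ) ^ (c * n) ≤ 2 ^ (e / 16 * n) :=
      Real.rpow_le_rpow_of_exponent_le one_le_two (mul_le_mul_of_nonneg_right hce hn)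
    linarith

end Pool.Agent.H73.AZ
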