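import Pool.Agent.H73.AZ.Circ
import Pool.Agent.H73.AZ.Fam
import Pool.Agent.H27.AX.Plus

/-! The functionals of good families. -/

namespace Pool.Agent.H73.AZ

open Finset Matrix Pool.Agent.H73.QA Pool.Agent.H73.AD
open Pool.Agent.H73.AX (GoodP GoodOpP near_goodP l2_integral_le)

set_option linter.unusedSectionVars false

section l2real

variable {Z : Type} [Fintype Z]

theorem l2r_eq (v : Z → ℝ) : l2 v = ‖(WithLp.toLp 2 v : EuclideanSpace ℝ Z)‖ := by
  rw [EuclideanSpace.norm_eq]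
  rfl

theorem l2r_add (v w : Z → ℝ) : l2 (fun z => v z + w z) ≤ l2 v + l2 w := by
  rw [l2r_eq, l2r_eq, l2r_eq]
  exact norm_add_le (WithLp.toLp 2 v : EuclideanSpace ℝ Z) (WithLp.toLp 2 w)

theorem l2r_zero : l2 (fun _ : Z => (0 : ℝ)) = 0 := by
  unfold l2
  simp

theorem l2r_nonneg (v : Z → ℝ) : 0 ≤ l2 v := Real.sqrt_nonneg _

theorem l2r_sum {ι : Type} (I : Finset ι) (f : ι → Z → ℝ) {b : ι → ℝ}
    (h : ∀ i ∈ I, l2 (f i) ≤ b i) : l2 (fun z => ∑ i ∈ I, f i z) ≤ ∑ i ∈ I, b i := by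
  classical
  induction I using Finset.induction_on with
  | empty =>
    simp only [sum_empty]
    rw [l2r_zero]
  | insert a s ha ih =>
    simp only [sum_insert ha]
    exact (l2r_add _ _).trans (add_le_add (h a (mem_insert_self a s))
      (ih fun i hi => h i (mem_insert_of_mem hi)))

theorem l2r_norm {E : Type} [NormedAddCommGroup E] (v : Z → E) :
    l2 (fun z => ‖v z‖) = l2 v := by
  unfold l2
  simp

theorem l2r_mul {v : Z → ℝ} {s : Z → ℝ} {a b : ℝ} (ha : 0 ≤ a) (hs : ∀ z, |s z| ≤ a)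
    (hv : l2 v ≤ b) : l2 (fun z => s z * v z) ≤ a * b := by
  refine le_trans ?_ (mul_le_mul_of_nonneg_left hv ha)
  unfold l2
  rw [← Real.sqrt_sq ha, ← Real.sqrt_mul (sq_nonneg a)]
  refine Real.sqrt_le_sqrt ?_
  rw [mul_sum]
  refine sum_le_sum fun z _ => ?_
  rw [norm_mul, mul_pow, Real.norm_eq_abs (s z)]
  exact mul_le_mul_of_nonneg_right (pow_le_pow_left₀ (abs_nonneg _) (hs z) 2) (sq_nonneg _)

end l2real

variable {n k m p q : ℕ} {Y : Type} [Fintype Y] [DecidableEq Y] {r : ℕ}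

/-- number of suffixes times the cost of a word -/
noncomputable def MR (p r : ℕ) : ℝ := (2 * p + 1) * (2 * (r + 1) * 16 ^ r)

theorem MR_one_le (p r : ℕ) : 1 ≤ MR p r := by
  unfold MR
  have h1 : (1 : ℝ) ≤ 16 ^ r := one_le_pow₀ (by norm_num)
  have h2 : (1 : ℝ) ≤ 2 * (r + 1) * 16 ^ r := by
    have : (0 : ℝ) ≤ r := Nat.cast_nonneg r
    nlinarith
  have h3 : (0 : ℝ) ≤ p := Nat.cast_nonneg p
  nlinarith

/-- action of a circuit -/
noncomputable def act (C : List (Gate n p Y)) : ℝ := (C.map Gate.act).sum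

theorem act_cons (c : Gate n p Y) (C : List (Gate n p Y)) : act (c :: C) = c.act + act C := by
  unfold act
  rw [List.map_cons, List.sum_cons]

theorem abs_le_iSup (f : Cube n → ℝ) (z : Cube n) : |f z| ≤ ⨆ z, |f z| :=
  le_ciSup (f := fun z => |f z|) (Set.finite_range _).bddAbove z

theorem iSup_abs_nonneg (f : Cube n → ℝ) : 0 ≤ ⨆ z, |f z| :=
  (abs_nonneg _).trans (abs_le_iSup f fun _ => false)

theorem gate_act_nonneg (c : Gate n p Y) : 0 ≤ c.act := by
  cases c with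
  | fix D => exact le_refl (0 : ℝ)
  | ev a => exact sum_nonneg fun i _ => iSup_abs_nonneg (a i)

theorem act_nonneg (C : List (Gate n p Y)) : 0 ≤ act C := by
  induction C with
  | nil => exact le_refl (0 : ℝ)
  | cons c C ih =>
    rw [act_cons]
    exact add_nonneg (gate_act_nonneg c) ih

theorem goodOpP_exp {Z : Type} [Fintype Z] {β K : ℝ} (hβ : 0 < β) (A : Z → Op n Y)
    (hA : GoodOp β K fun z => lin (A z)) :
    GoodOpP β (Real.exp K) fun z => lin (NormedSpace.exp ((-Complex.I) • A z)) :=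
  AX.goodOpP_exp hβ A hA

section good

variable {G : Fin m → Clause n k} {ε δ ν t β : ℝ} {Z : Type} [Fintype Z]

theorem goodOp_hamX (hS : Std ε δ ν t r G) (hβ : 0 ≤ β) (ζ : Z → Cube n)
    (hB : ∀ x, ((univ.filter fun z => x ∈ hball δ (ζ z)).card : ℝ) ≤ β ^ 2)
    (w : Fin p → List (Letter n m Y)) (hw : ∀ i, ∀ l ∈ w i, l.Ok t r G)
    (hr : ∀ i, (w i).length ≤ r) (a : Fin p → Cube n → ℝ) :
    GoodOp β (2 * 16 ^ r * ∑ i, ⨆ z, |a i z|)
      (fun z => lin (Ham (Letter.flt G δ (ζ z)) w fun i => a i (ζ z))) := by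
  have h1 : (fun z => lin (Ham (Letter.flt G δ (ζ z)) w fun i => a i (ζ z))) =
      fun z => ∑ i, (a i (ζ z) : ℂ) • sw (Letter.flt G δ (ζ z)) (w i) := by
    funext z
    rw [lin_ham (adj_flt G δ (ζ z))]
  rw [h1]
  have h2 : ∀ i, GoodOp β ((⨆ z, |a i z|) * (16 ^ r + 16 ^ r))
      (fun z => (a i (ζ z) : ℂ) • sw (Letter.flt G δ (ζ z)) (w i)) := by
    intro i
    have g2 := goodOp_sw hS hβ ζ hB (hw i) (hr i)
    refine g2.smul (iSup_abs_nonneg _) (fun z => (a i (ζ z) : ℂ)) fun z => ?_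
    rw [Complex.norm_real, Real.norm_eq_abs]
    exact abs_le_iSup (a i) (ζ z)
  refine (GoodOp.sum hβ univ fun i _ => h2 i).mono hβ (le_of_eq ?_)
  rw [← sum_mul]
  ring

theorem goodOpP_ev (hS : Std ε δ ν t r G) (hβ : 0 < β) (ζ : Z → Cube n)
    (hB : ∀ x, ((univ.filter fun z => x ∈ hball δ (ζ z)).card : ℝ) ≤ β ^ 2)
    (w : Fin p → List (Letter n m Y)) (hw : ∀ i, ∀ l ∈ w i, l.Ok t r G)
    (hr : ∀ i, (w i).length ≤ r) (a : Fin p → Cube n → ℝ) {s : ℝ} (hs0 : 0 ≤ s) (hs1 : s ≤ 1) :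
    GoodOpP β (Real.exp (2 * 16 ^ r * ∑ i, ⨆ z, |a i z|))
      (fun z => lin (NormedSpace.exp ((-Complex.I * s) •
        Ham (Letter.flt G δ (ζ z)) w fun i => a i (ζ z)))) := by
  have h1 := (goodOp_hamX hS hβ.le ζ hB w hw hr a).smul hs0 (fun _ => (s : ℂ)) fun z => by
    rw [Complex.norm_real, Real.norm_of_nonneg hs0]
  have h0 : 0 ≤ 2 * (16 : ℝ) ^ r * ∑ i, ⨆ z, |a i z| := by
    have : 0 ≤ ∑ i, ⨆ z, |a i z| := sum_nonneg fun i _ => iSup_abs_nonneg (a i)
    positivity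
  have h2 : GoodOp β (2 * 16 ^ r * ∑ i, ⨆ z, |a i z|) (fun z => lin ((s : ℂ) •
      Ham (Letter.flt G δ (ζ z)) w fun i => a i (ζ z))) := by
    simp only [lin_smul]
    refine h1.mono hβ.le ?_
    nlinarith
  have h3 := goodOpP_exp hβ (fun z => (s : ℂ) •
      Ham (Letter.flt G δ (ζ z)) w fun i => a i (ζ z)) h2
  simpa only [smul_smul] using h3

theorem goodOpP_circ (hS : Std ε δ ν t r G) (hβ : 0 < β) (ζ : Z → Cube n)
    (hB : ∀ x, ((univ.filter fun z => x ∈ hball δ (ζ z)).card : ℝ) ≤ β ^ 2)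
    (w : Fin p → List (Letter n m Y)) (hw : ∀ i, ∀ l ∈ w i, l.Ok t r G)
    (hr : ∀ i, (w i).length ≤ r) (C : List (Gate n p Y)) (hC : ∀ c ∈ C, c.Ok) :
    GoodOpP β (Real.exp (2 * 16 ^ r * act C))
      (fun z => lin (circ (Letter.flt G δ (ζ z)) w (ζ z) C)) := by
  induction C with
  | nil =>
    have h1 : (fun z => lin (circ (Letter.flt G δ (ζ z)) w (ζ z) ([] : List (Gate n p Y)))) =
        fun _ : Z => (LinearMap.id : Sp n Y →ₗ[ℂ] Sp n Y) := by
      funext z
      rw [circ_nil, lin_one]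
    rw [h1]
    have h2 : Real.exp (2 * 16 ^ r * act ([] : List (Gate n p Y))) = 1 := by
      unfold act
      simp
    rw [h2]
    exact AX.GoodOp.plus hβ.le (goodOp_fixed zero_le_one _ fun u => by simp)
  | cons c C ih =>
    have ih' := ih fun c' hc' => hC c' (by simp [hc'])
    have h1 : (fun z => lin (circ (Letter.flt G δ (ζ z)) w (ζ z) (c :: C))) =
        fun z => lin (c.op (Letter.flt G δ (ζ z)) w (ζ z)) ∘ₗ
          lin (circ (Letter.flt G δ (ζ z)) w (ζ z) C) := by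
      funext z
      rw [circ_cons, lin_mul]
    rw [h1, act_cons, mul_add, Real.exp_add]
    refine AX.GoodOpP.comp ih' ?_
    have hc := hC c (by simp)
    cases c with
    | fix D =>
      have h2 : Real.exp (2 * 16 ^ r * (Gate.fix D : Gate n p Y).act) = 1 := by
        show Real.exp (2 * 16 ^ r * 0) = 1
        simp
      rw [h2]
      exact AX.GoodOp.plus hβ.le
        (goodOp_fixed zero_le_one (lin D) fun u => norm_lin_of_bdd zero_le_one hc u)
    | ev a =>
      have h2 := goodOpP_ev hS hβ ζ hB w hw hr a (s := 1) zero_le_one le_rfl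
      simp only [Complex.ofReal_one, mul_one] at h2
      exact h2

theorem l2_near (hβ : 0 ≤ β) (ζ : Z → Cube n)
    (hB : ∀ x, ((univ.filter fun z => x ∈ hball δ (ζ z)).card : ℝ) ≤ β ^ 2) {c : ℝ}
    {v : Z → Sp n Y} (hv : GoodP β c v) :
    l2 (fun z => ‖nearP (hball δ (ζ z)) (v z)‖) ≤ 2 * (β * c) := by
  rw [l2r_norm]
  exact near_goodP hβ hB hv

theorem l2_LV (hS : Std ε δ ν t r G) (hβ : 0 ≤ β) (ζ : Z → Cube n)
    (hB : ∀ x, ((univ.filter fun z => x ∈ hball δ (ζ z)).card : ℝ) ≤ β ^ 2)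
    {l : Letter n m Y} (hl : l.Ok t r G) {c : ℝ} (hc : 0 ≤ c) {v : Z → Sp n Y}
    (hv : GoodP β c v) : l2 (fun z => LV G δ (ζ z) l (v z)) ≤ 2 * (β * c) := by
  cases l with
  | fix D =>
    show l2 (fun _ : Z => (0 : ℝ)) ≤ _
    rw [l2r_zero]
    positivity
  | cost =>
    show l2 (fun _ : Z => (0 : ℝ)) ≤ _
    rw [l2r_zero]
    positivity
  | cls h =>
    show l2 (fun _ : Z => (0 : ℝ)) ≤ _
    rw [l2r_zero]
    positivity
  | pen h =>
    have h1 := (AX.GoodOp.plus hβ (goodOp_vio hS.hm hS.ε1 hS.hG hS.hR hβ ζ (penOk_of hl))).2 c v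
      hc hv
    rw [one_mul] at h1
    exact l2_near hβ ζ hB h1
  | orc D X =>
    show l2 (fun _ : Z => (0 : ℝ)) ≤ _
    rw [l2r_zero]
    positivity

theorem l2_NW (hS : Std ε δ ν t r G) (hβ : 0 ≤ β) (ζ : Z → Cube n)
    (hB : ∀ x, ((univ.filter fun z => x ∈ hball δ (ζ z)).card : ℝ) ≤ β ^ 2)
    (w : List (Letter n m Y)) (hw : ∀ l ∈ w, l.Ok t r G) {c : ℝ} (hc : 0 ≤ c)
    {v : Z → Sp n Y} (hv : GoodP β c v) :
    l2 (fun z => NW G δ (ζ z) w (v z)) ≤
      2 * (β * (2 * (w.length + 1) * 16 ^ w.length * c)) := by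
  induction w with
  | nil =>
    refine (l2_near hβ ζ hB hv).trans ?_
    have : 0 ≤ β * c := by positivity
    simp only [List.length_nil, Nat.cast_zero, pow_zero]
    linarith
  | cons l w ih =>
    have hl : l.Ok t r G := hw l (by simp)
    have hw' : ∀ l ∈ w, l.Ok t r G := fun l hl => hw l (by simp [hl])
    have h1 := (AX.GoodOp.plus hβ (goodOp_wd hS hβ ζ hB w hw')).2 c v hc hv
    have h2 := (AX.GoodOp.plus hβ (goodOp_wd hS hβ ζ hB (l :: w) hw)).2 c v hc hv
    have h3 := l2_LV hS hβ ζ hB hl (by positivity) h1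
    have h4 := l2_near hβ ζ hB h2
    have h5 := ih hw'
    show l2 (fun z => NW G δ (ζ z) w (v z) +
      (LV G δ (ζ z) l (lin (wd (Letter.flt G δ (ζ z)) w) (v z)) +
      ‖nearP (hball δ (ζ z)) (lin (wd (Letter.flt G δ (ζ z)) (l :: w)) (v z))‖)) ≤ _
    refine (l2r_add _ _).trans ((add_le_add h5 ((l2r_add _ _).trans (add_le_add h3 h4))).trans ?_)
    rw [List.length_cons, pow_succ]
    push_cast
    obtain ⟨x, hx⟩ : ∃ x, x = β * (16 ^ w.length * c) := ⟨_, rfl⟩
    have h6 : 0 ≤ x := by rw [hx]; positivity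
    have h7 : 0 ≤ (w.length : ℝ) * x := by positivity
    calc _ = 4 * ((w.length : ℝ) * x) + 38 * x := by rw [hx]; ring
      _ ≤ 64 * ((w.length : ℝ) * x) + 128 * x := by linarith
      _ = _ := by rw [hx]; ring

theorem l2_NR (hS : Std ε δ ν t r G) (hβ : 0 ≤ β) (ζ : Z → Cube n)
    (hB : ∀ x, ((univ.filter fun z => x ∈ hball δ (ζ z)).card : ℝ) ≤ β ^ 2)
    (w : Fin p → List (Letter n m Y)) (hw : ∀ i, ∀ l ∈ w i, l.Ok t r G)
    (hr : ∀ i, (w i).length ≤ r) {c : ℝ} (hc : 0 ≤ c) {v : Z → Sp n Y} (hv : GoodP β c v) :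
    l2 (fun z => NR G δ w (ζ z) (v z)) ≤ 2 * (β * (MR p r * c)) := by
  unfold NR
  refine (l2r_sum univ _ (b := fun _ => 2 * (β * (2 * (r + 1) * 16 ^ r * c)))
    fun x _ => ?_).trans (le_of_eq ?_)
  · have hx : (aw w x).length ≤ r ∧ ∀ l ∈ aw w x, l.Ok t r G := by
      rcases x with _ | x | x
      · exact ⟨Nat.zero_le r, fun l hl => absurd hl List.not_mem_nil⟩
      · exact ⟨hr x, hw x⟩
      · exact ⟨(adjW_length (w x)).le.trans (hr x), adjW_ok (hw x)⟩
    refine (l2_NW hS hβ ζ hB (aw w x) hx.2 hc hv).trans ?_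
    have h1 : ((aw w x).length : ℝ) ≤ r := by exact_mod_cast hx.1
    have h2 : (16 : ℝ) ^ (aw w x).length ≤ 16 ^ r := pow_le_pow_right₀ (by norm_num) hx.1
    gcongr
  · simp only [sum_const, card_univ, Fintype.card_option, Fintype.card_sum,
      Fintype.card_fin, nsmul_eq_mul]
    unfold MR
    push_cast
    ring

theorem l2_ER (hS : Std ε δ ν t r G) (hβ : 0 < β) (ζ : Z → Cube n)
    (hB : ∀ x, ((univ.filter fun z => x ∈ hball δ (ζ z)).card : ℝ) ≤ β ^ 2)
    (w : Fin p → List (Letter n m Y)) (hw : ∀ i, ∀ l ∈ w i, l.Ok t r G)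
    (hr : ∀ i, (w i).length ≤ r) (C : List (Gate n p Y)) (hC : ∀ c ∈ C, c.Ok) {c : ℝ}
    (hc : 0 ≤ c) {v : Z → Sp n Y} (hv : GoodP β c v) :
    l2 (fun z => ER G δ r w (ζ z) C (v z)) ≤
      act C * 4 ^ (r + 1) * (2 * (β * (MR p r * (Real.exp (2 * 16 ^ r * act C) * c)))) := by
  have hMR : 0 ≤ MR p r := zero_le_one.trans (MR_one_le p r)
  induction C with
  | nil =>
    have h1 : (fun z => ER G δ r w (ζ z) ([] : List (Gate n p Y)) (v z)) = fun _ : Z => (0 : ℝ) :=
      rfl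
    rw [h1, l2r_zero]
    have := act_nonneg ([] : List (Gate n p Y))
    positivity
  | cons g C ih =>
    have hC' : ∀ c ∈ C, c.Ok := fun c' hc' => hC c' (by simp [hc'])
    have ih' := ih hC'
    have ha := act_nonneg C
    have hg := gate_act_nonneg g
    have hexp : Real.exp (2 * 16 ^ r * act C) ≤ Real.exp (2 * 16 ^ r * act (g :: C)) := by
      rw [act_cons]
      refine Real.exp_le_exp.2 (mul_le_mul_of_nonneg_left (by linarith) (by positivity))
    have hmono : act C * 4 ^ (r + 1) *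
        (2 * (β * (MR p r * (Real.exp (2 * 16 ^ r * act C) * c)))) ≤
        act C * 4 ^ (r + 1) *
        (2 * (β * (MR p r * (Real.exp (2 * 16 ^ r * act (g :: C)) * c)))) := by
      gcongr
    cases g with
    | fix D =>
      have h1 : act (Gate.fix D :: C) = act C := by
        rw [act_cons]
        show 0 + act C = act C
        rw [zero_add]
      rw [h1]
      exact ih'
    | ev a =>
      have h1 : (fun z => ER G δ r w (ζ z) (Gate.ev a :: C) (v z)) = fun z =>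
          ER G δ r w (ζ z) C (v z) + ((∑ i, |a i (ζ z)|) * 4 ^ (r + 1)) *
            ∫ s in (0 : ℝ)..1, NR G δ w (ζ z) (lin (NormedSpace.exp ((-Complex.I * s) •
              Ham (Letter.flt G δ (ζ z)) w fun i => a i (ζ z)))
                (lin (circ (Letter.flt G δ (ζ z)) w (ζ z) C) (v z))) := rfl
      rw [h1]
      refine (l2r_add _ _).trans ?_
      have hA : (Gate.ev a : Gate n p Y).act = ∑ i, ⨆ z, |a i z| := rfl
      have h2 : l2 (fun z => ((∑ i, |a i (ζ z)|) * 4 ^ (r + 1)) *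
            ∫ s in (0 : ℝ)..1, NR G δ w (ζ z) (lin (NormedSpace.exp ((-Complex.I * s) •
              Ham (Letter.flt G δ (ζ z)) w fun i => a i (ζ z)))
                (lin (circ (Letter.flt G δ (ζ z)) w (ζ z) C) (v z)))) ≤
          ((Gate.ev a : Gate n p Y).act * 4 ^ (r + 1)) *
            (2 * (β * (MR p r * (Real.exp (2 * 16 ^ r * act (Gate.ev a :: C)) * c)))) := by
        refine l2r_mul (mul_nonneg hg (by positivity)) (fun z => ?_) ?_
        · have h3 : 0 ≤ ∑ i, |a i (ζ z)| := sum_nonneg fun _ _ => abs_nonneg _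
          rw [abs_of_nonneg (by positivity), hA]
          refine mul_le_mul_of_nonneg_right (sum_le_sum fun i _ => abs_le_iSup (a i) (ζ z))
            (by positivity)
        · refine l2_integral_le (f := fun z (s : ℝ) => NR G δ w (ζ z)
            (lin (NormedSpace.exp ((-Complex.I * s) •
              Ham (Letter.flt G δ (ζ z)) w fun i => a i (ζ z)))
                (lin (circ (Letter.flt G δ (ζ z)) w (ζ z) C) (v z)))) (fun z => ?_)
            (fun z s => NR_nonneg _ _ _ _ _) fun s hs => ?_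
          · exact (continuous_NR G δ w (ζ z)).comp (continuous_exp _ _)
          · have h3 := (goodOpP_circ hS hβ ζ hB w hw hr C hC').2 c v hc hv
            have h4 := (goodOpP_ev hS hβ ζ hB w hw hr a hs.1 hs.2).2 _ _
              (mul_nonneg (Real.exp_nonneg _) hc) h3
            have h5 := l2_NR hS hβ.le ζ hB w hw hr (by positivity) h4
            refine h5.trans (le_of_eq ?_)
            rw [act_cons, mul_add, Real.exp_add, hA]
            ring
      refine (add_le_add (ih'.trans hmono) h2).trans (le_of_eq ?_)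
      rw [act_cons]
      ring

/-- cost of a circuit functional -/
noncomputable def AXc (p r : ℕ) (A : ℝ) : ℝ :=
  MR p r * (Real.exp (2 * 16 ^ r * A) * (2 + A * 4 ^ (r + 1)))

theorem l2_NX (hS : Std ε δ ν t r G) (hβ : 0 < β) (ζ : Z → Cube n)
    (hB : ∀ x, ((univ.filter fun z => x ∈ hball δ (ζ z)).card : ℝ) ≤ β ^ 2)
    (w : Fin p → List (Letter n m Y)) (hw : ∀ i, ∀ l ∈ w i, l.Ok t r G)
    (hr : ∀ i, (w i).length ≤ r) (C : List (Gate n p Y)) (hC : ∀ c ∈ C, c.Ok) {A : ℝ}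
    (hA : act C ≤ A) {c : ℝ} (hc : 0 ≤ c) {v : Z → Sp n Y} (hv : GoodP β c v) :
    l2 (fun z => NX G δ r w (ζ z) C (v z)) ≤ 2 * (β * (AXc p r A * c)) := by
  have hMR : 0 ≤ MR p r := zero_le_one.trans (MR_one_le p r)
  have ha := act_nonneg C
  have hE : Real.exp (2 * 16 ^ r * act C) ≤ Real.exp (2 * 16 ^ r * A) :=
    Real.exp_le_exp.2 (mul_le_mul_of_nonneg_left hA (by positivity))
  have hE1 : 1 ≤ Real.exp (2 * 16 ^ r * A) := by
    refine Real.one_le_exp ?_
    have := ha.trans hA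
    positivity
  have h1 := l2_NR hS hβ.le ζ hB w hw hr hc hv
  have h2 := l2_ER hS hβ ζ hB w hw hr C hC hc hv
  have h3 := l2_NR hS hβ.le ζ hB w hw hr (mul_nonneg (Real.exp_nonneg _) hc)
    ((goodOpP_circ hS hβ ζ hB w hw hr C hC).2 c v hc hv)
  unfold NX
  refine (l2r_add _ _).trans ((add_le_add h1 ((l2r_add _ _).trans (add_le_add h2 h3))).trans ?_)
  have k1 : MR p r * c ≤ MR p r * (Real.exp (2 * 16 ^ r * A) * c) := by
    refine mul_le_mul_of_nonneg_left ?_ hMR
    nlinarith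
  have k2 : MR p r * (Real.exp (2 * 16 ^ r * act C) * c) ≤
      MR p r * (Real.exp (2 * 16 ^ r * A) * c) :=
    mul_le_mul_of_nonneg_left (mul_le_mul_of_nonneg_right hE hc) hMR
  obtain ⟨e, he⟩ : ∃ e, e = MR p r * (Real.exp (2 * 16 ^ r * A) * c) := ⟨_, rfl⟩
  rw [← he] at k1 k2
  have he0 : 0 ≤ e := by rw [he]; positivity
  have k3 : act C * 4 ^ (r + 1) * (2 * (β * (MR p r * (Real.exp (2 * 16 ^ r * act C) * c)))) ≤
      A * 4 ^ (r + 1) * (2 * (β * e)) := by
    have hA0 : 0 ≤ A := ha.trans hA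
    gcongr
  have k4 : 2 * (β * (AXc p r A * c)) = 2 * (β * e) + (A * 4 ^ (r + 1) * (2 * (β * e)) +
      2 * (β * e)) := by
    rw [he]
    unfold AXc
    ring
  rw [k4]
  have k5 : β * (MR p r * c) ≤ β * e := mul_le_mul_of_nonneg_left k1 hβ.le
  have k6 : β * (MR p r * (Real.exp (2 * 16 ^ r * act C) * c)) ≤ β * e :=
    mul_le_mul_of_nonneg_left k2 hβ.le
  linarith

end good

end Pool.Agent.H73.AZ
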