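import Pool.Agent.H73.AZ.Stmt
import Pool.Agent.H27.AW.Ann

/-! Ground energies of annealing Hamiltonians are low-lying. -/

namespace Pool.Agent.H73.AZ

open Finset Matrix Pool.Agent.H73.QA Pool.Agent.H73.AD

variable {n k m : ℕ} {Y : Type} [Fintype Y] [DecidableEq Y]

theorem ham_two (f : Letter n m Y → Op n Y) (A : Op n Y) (b : ℝ) (hA : A.IsHermitian)
    (hf : f (.fix A) = A) (hc : (f .cost).IsHermitian) :
    Ham f ![[.fix A], [.cost]] ![b / 2, (1 - b) / 2] =
      (b : ℂ) • A + ((1 - b : ℝ) : ℂ) • f .cost := by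
  unfold Ham
  rw [Fin.sum_univ_two]
  simp only [Matrix.cons_val_zero, Matrix.cons_val_one, List.map_cons, List.map_nil,
    List.prod_cons, List.prod_nil, mul_one, hf, hA.eq, hc.eq]
  have h1 : ∀ (c : ℝ) (X : Op n Y), ((c / 2 : ℝ) : ℂ) • (X + X) = (c : ℂ) • X := by
    intro c X
    rw [← two_smul ℂ X, smul_smul]
    congr 1
    push_cast
    ring
  rw [h1, h1]

theorem cost_herm (G : Fin m → Clause n k) (z : Cube n) :
    (Letter.op (Y := Y) G z .cost).IsHermitian := by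
  show (diagonal fun x : Cube n × Y => ((2 ^ k / m * pviol G z x.1 : ℝ) : ℂ)).IsHermitian
  unfold Matrix.IsHermitian
  rw [diagonal_conjTranspose]
  congr 1
  funext x
  exact Complex.conj_ofReal _

theorem pviol_self (G : Fin m → Clause n k) (z : Cube n) : pviol G z z = 0 := by
  unfold pviol
  rw [card_eq_zero]
  exact filter_false_of_mem fun j _ h => h.1 h.2

/-- Ground energies of the annealing Hamiltonians `b A + (1 - b) cost` are low-lying. -/
theorem low_ann {α κ b E : ℝ} {A : Op n Y} (G : Fin m → Clause n k) (z : Cube n)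
    (hbd : Bdd A 1)
    (hpsd : ∀ v : Cube n × Y → ℂ, 0 ≤ (star v ⬝ᵥ A *ᵥ v).re)
    (hker : ∃ v : Cube n × Y → ℂ, v ≠ 0 ∧ A *ᵥ v = 0)
    (hfew : Few α κ 0 A) (hb0 : 0 ≤ b) (hκ0 : 0 < κ) (hκ1 : κ ≤ 1)
    {w : Fin 2 → List (Letter n m Y)} (hw : w = ![[.fix A], [.cost]]) {a : Fin 2 → ℝ}
    (ha : a = ![b / 2, (1 - b) / 2])
    (hE : ∀ v : Cube n × Y → ℂ, E * nsq v ≤ (star v ⬝ᵥ Ham (Letter.op G z) w a *ᵥ v).re) :
    LowE α (κ / 10) (Ham (Letter.op G z) w a) (Ham Letter.av w a) E := by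
  subst hw
  subst ha
  obtain ⟨hA, hc⟩ := hfew
  rw [ham_two _ A b hA rfl (cost_herm G z)] at hE ⊢
  rw [ham_two Letter.av A b hA rfl (by exact isHermitian_one)]
  refine AW.ann_low (A := A) hpsd hker ⟨hA, hc⟩ hb0 hE ?_ hκ0 hκ1
  -- the planted solution has energy at most `b`
  obtain ⟨y⟩ : Nonempty Y := by
    obtain ⟨v, hv, -⟩ := hker
    by_contra hY
    rw [not_nonempty_iff] at hY
    exact hv (funext fun x => hY.elim x.2)
  obtain ⟨v, hv⟩ : ∃ v : Cube n × Y → ℂ, v = Pi.single (z, y) 1 := ⟨_, rfl⟩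
  have h1 : nsq v = 1 := by
    rw [hv]
    unfold nsq
    rw [sum_eq_single (z, y)]
    · simp
    · intro x _ hx
      rw [Pi.single_eq_of_ne hx]
      simp
    · simp
  have h2 := hE v
  rw [h1, mul_one, add_mulVec, smul_mulVec, smul_mulVec, dotProduct_add, dotProduct_smul,
    dotProduct_smul, smul_eq_mul, smul_eq_mul, Complex.add_re, Complex.re_ofReal_mul,
    Complex.re_ofReal_mul] at h2
  have h3 : Letter.op (Y := Y) G z .cost *ᵥ v = 0 := by
    show (diagonal fun x : Cube n × Y => ((2 ^ k / m * pviol G z x.1 : ℝ) : ℂ)) *ᵥ v = 0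
    funext x
    rw [mulVec_diagonal, hv, Pi.zero_apply]
    by_cases hx : x = (z, y)
    · subst hx
      simp only [pviol_self]
      simp
    · rw [Pi.single_eq_of_ne hx, mul_zero]
  have h4 : (star v ⬝ᵥ A *ᵥ v).re ≤ 1 := by
    have h5 : (star v ⬝ᵥ A *ᵥ v).re ≤ ‖(A *ᵥ v) (z, y)‖ := by
      have h6 : star v ⬝ᵥ A *ᵥ v = (A *ᵥ v) (z, y) := by
        unfold dotProduct
        rw [sum_eq_single (z, y)]
        · rw [hv]
          simp
        · intro x _ hx
          rw [Pi.star_apply, hv, Pi.single_eq_of_ne hx]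
          simp
        · simp
      rw [h6]
      exact (le_abs_self _).trans (Complex.abs_re_le_norm _)
    have h7 : ‖(A *ᵥ v) (z, y)‖ ^ 2 ≤ nsq (A *ᵥ v) :=
      single_le_sum (f := fun x => ‖(A *ᵥ v) x‖ ^ 2) (fun x _ => sq_nonneg _) (mem_univ (z, y))
    have h8 := hbd v
    rw [h1] at h8
    have h9 : ‖(A *ᵥ v) (z, y)‖ ≤ 1 := by
      refine abs_le_of_sq_le_sq' ?_ zero_le_one |>.2
      linarith
    exact h5.trans h9
  rw [h3, dotProduct_zero, Complex.zero_re, mul_zero, add_zero] at h2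
  have h5 := mul_le_mul_of_nonneg_left h4 hb0
  linarith

end Pool.Agent.H73.AZ
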