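import Pool.Agent.H73.AZ.Num
import Pool.Agent.H73.AD.Typ
import Pool.Agent.H27.AZ.TypR
import Pool.Agent.H86.AZ.ChainB

/-! The theorem. -/

namespace Pool.Agent.H73.AZ

open Finset Matrix Pool.Agent.H73.QA Pool.Agent.H73.AD

/-- one typical formula and one system of nets -/
theorem one_formula {α κ Λ t e ε δ ν σ K1 : ℝ} {Q r : ℕ} (hα : 0 ≤ α) (hκ : 0 < κ)
    (hκ1 : κ ≤ 1)
    (hΛ : 0 ≤ Λ) (he : 0 < e) (hQ1 : 1 ≤ Q) (hσ0 : 0 < σ) (hK1 : 1 ≤ K1)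
    (hK2 : K1 ≤ 2 ^ (e / 16 * Q))
    (hK3 : (κ / 4)⁻¹ * (16 ^ r * (4 * Λ + 12 * (σ / 8)) + 2 * σ) ≤ K1)
    (hθ : (κ / 4)⁻¹ * (3 * σ) ≤ 2 ^ (-(Q : ℝ) / 2))
    (hball : ∀ (n : ℕ) (x : Cube n),
      ((univ.filter fun z => x ∈ hball δ z).card : ℝ) ≤ (2 : ℝ) ^ (e / 16 * n))
    {k n m : ℕ} (hk1 : Λ * (r * 2 ^ (r + 1)) * (ν + ε + 2 / Real.sqrt (2 ^ k)) ≤ σ / 2)
    (hk2 : Λ * (r * 2 ^ (r + 1)) * (ν + ε + 2 / Real.sqrt (2 ^ k)) ≤ κ / 4)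
    (hn1 : 1 * ((n : ℝ) + 1) ≤ 2 ^ (e / 16 * n)) {c : ℝ} (hc0 : 0 < c)
    (hce : c ≤ e / (512 * 16 ^ r))
    (hn3 : (6 * (r + 1) * 16 ^ r) * ((n : ℝ) + 1) ≤ 2 ^ (e / 512 * n))
    (hn4 : (2 + c * 4 ^ (r + 1)) * ((n : ℝ) + 1) ≤ 2 ^ (e / 256 * n))
    {G : Fin m → Clause n k} (hG : Std ε δ ν t r G) {Y : Type} [Fintype Y] [DecidableEq Y]
    {p q : ℕ} {A : Set (Fin p → ℝ)} {K : Type} [DecidableEq K] {Ic : Finset K} {Is : Finset ℤ}
    {cell : (Fin p → ℝ) → K} {bx : K → Fin p → ℝ} {ns : ℝ → ℤ}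
    (hN : Nets A Λ (σ / 8) σ r Ic Is cell bx ns) (hNc : (Ic.card : ℝ) ≤ 2 * 2 ^ (e / 16 * n))
    (hn2 : 4 * 4 * 4 * 4 * 1 * (Is.card : ℝ) ^ 2 *
      (25 / κ ^ 2 * 16 * K1 ^ 4) * ((1600 * (Λ + 1) * 4 ^ r) / κ) ^ 2 ≤
      2 ^ (e / 16 * n))
    (w : Fin p → List (Letter n m Y)) (T : Fin q → List (Gate n p Y)) (u : ℝ)
    (hp : p ≤ (2 : ℝ) ^ (c * n)) (hq : q ≤ (2 : ℝ) ^ (c * n))
    (hw : ∀ i, (w i).length ≤ r ∧ ∀ l ∈ w i, l.Ok t r G)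
    (hT : ∀ j, (∀ g ∈ T j, g.Ok) ∧ ((T j).map Gate.act).sum ≤ c * n) :
    (Nat.card {z : Cube n // ¬ Hard α κ Λ t u A G w T z} : ℝ) ≤ 2 ^ ((α + 2 * u + e) * n) := by
  classical
  have hA0 : 0 ≤ c * (n : ℝ) := by positivity
  have hA : ∀ j, act (T j) ≤ c * n := fun j => (hT j).2
  have ha8 := ax_le (p := p) (r := r) hc0.le hce hp hn3 hn4
  have he1 : 0 < e / 16 := by linarith
  -- constants
  obtain ⟨R, hR⟩ : ∃ R : ℝ, R = 2 ^ (α / 2 * n) := ⟨_, rfl⟩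
  have hR1 : 1 ≤ R := by rw [hR]; exact Real.one_le_rpow one_le_two (by positivity)
  have hR2 : R ^ 2 = 2 ^ (α * n) := by
    rw [hR, rpow_sq_n]; congr 2; ring
  obtain ⟨β, hβ⟩ : ∃ β : ℝ, β = 2 ^ (e / 32 * n) := ⟨_, rfl⟩
  have hβ1 : 1 ≤ β := by rw [hβ]; exact Real.one_le_rpow one_le_two (by positivity)
  have hβ2 : β ^ 2 = 2 ^ (e / 16 * n) := by
    rw [hβ, rpow_sq_n]; congr 2; ring
  have hC : Consts κ Λ ε δ ν (σ / 8) σ β R n k (n / Q + 1) r := by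
    refine ⟨hκ, hκ1, hΛ, by linarith, hσ0.le, by linarith, by linarith,
      by linarith, by linarith, ?_, fun x => ?_⟩
    · exact (iter_le hQ1 (by positivity) hθ).trans hβ1
    · rw [hβ2]; exact hball n x
  obtain ⟨η, hη⟩ : ∃ η : ℝ, η = κ * (2 : ℝ) ^ (-u * n) / (1600 * (Λ + 1) * 4 ^ r) :=
    ⟨_, rfl⟩
  have hM0 : 0 < 1600 * (Λ + 1) * (4 : ℝ) ^ r := by positivity
  have hη0 : 0 < η := by
    rw [hη]
    have := Real.rpow_pos_of_pos two_pos (-u * n)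
    positivity
  obtain ⟨S, hS⟩ : ∃ S : Finset (Cube n), S = univ.filter fun z =>
      ¬ GoodX α κ Λ δ η r A G w T z := ⟨_, rfl⟩
  have h1 := count_bad (α := α) hC hG w T (fun i => (hw i).2)
    (fun i => (hw i).1) (fun j => (hT j).1) hA0 hA hR2.ge hN hη0 S (fun z hz => by
    rw [hS, mem_filter] at hz
    exact hz.2)
  -- the numbers
  have hn1' : (n : ℝ) + 1 ≤ 2 ^ (e / 16 * n) := by linarith
  have hg := geo_le (e1 := e / 16) (ρ := σ / 8) n r hκ hΛ (by linarith) hσ0.le hK1 hK2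
    he1.le hK3 hn1'
  have hw1 : (1 : ℝ) ≤ 2 ^ (e / 16 * n) := Real.one_le_rpow one_le_two (by positivity)
  have hq1 : (q : ℝ) ≤ 2 ^ (e / 16 * n) := by
    refine hq.trans (Real.rpow_le_rpow_of_exponent_le one_le_two ?_)
    refine mul_le_mul_of_nonneg_right (hce.trans ?_) (Nat.cast_nonneg _)
    have h16 : (1 : ℝ) ≤ 16 ^ r := one_le_pow₀ (by norm_num)
    exact div_le_div_of_nonneg_left he.le (by norm_num) (by linarith)
  have hint : ((Ic.card : ℝ)) * (Is.card : ℝ) ≤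
      ((Ic.card : ℝ) * (Is.card : ℝ)) ^ 2 := by
    have h2 : ∀ x : ℕ, x ≤ x ^ 2 := fun x => Nat.le_self_pow two_ne_zero x
    exact_mod_cast h2 (Ic.card * Is.card)
  have hgeo0 : 0 ≤ geo κ Λ (σ / 8) σ r (n / Q + 1) := by
    unfold geo
    positivity
  have hab := ax_bounds (p := p) (r := r) hA0
  have ha1 : 1 ≤ AXc p r (c * n) := (MR_one_le p r).trans hab.1
  have hsum := sum_counts (N := Ic.card * Is.card) (q := q) (β := β) (η := η) (R := R)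
    (g := geo κ Λ (σ / 8) σ r (n / Q + 1)) (κ := κ) (MRv := MR p r) (AXv := AXc p r (c * n))
    (E := Real.exp (2 * 16 ^ r * (c * n))) (by positivity) (by positivity) (by linarith)
    (by linarith) hgeo0 hκ (zero_le_one.trans (MR_one_le p r)) hab.1 (by positivity) hab.2
  have hn5 : 4 * 4 * 4 * 4 * 1 * (Is.card : ℝ) ^ 2 *
      (25 / κ ^ 2 * (AXc p r (c * n)) ^ 4 * 16 * K1 ^ 4) *
      ((1600 * (Λ + 1) * 4 ^ r) / κ) ^ 2 ≤ 2 ^ (e / 8 * n) := by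
    have k1 : (AXc p r (c * n)) ^ 4 ≤ 2 ^ (e / 16 * n) := by
      calc (AXc p r (c * n)) ^ 4 ≤ ((2 : ℝ) ^ (e / 64 * n)) ^ 4 :=
            pow_le_pow_left₀ (by linarith) ha8 4
        _ = 2 ^ (e / 16 * n) := by
            rw [← Real.rpow_natCast, ← Real.rpow_mul two_pos.le]
            congr 1
            push_cast
            ring
    have k2 : (2 : ℝ) ^ (e / 8 * n) = 2 ^ (e / 16 * n) * 2 ^ (e / 16 * n) := by
      rw [rpow_add_n]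
      congr 2
      ring
    rw [k2]
    calc _ = (4 * 4 * 4 * 4 * 1 * (Is.card : ℝ) ^ 2 *
          (25 / κ ^ 2 * 16 * K1 ^ 4) * ((1600 * (Λ + 1) * 4 ^ r) / κ) ^ 2) *
          (AXc p r (c * n)) ^ 4 := by ring
      _ ≤ _ := mul_le_mul hn2 k1 (by positivity) (by positivity)
  have h2 := AW.final (α := α) (u := u) (e := e) (κ := κ) (K1 := K1) (β := β) (R := R) (η := η)
    (g := geo κ Λ (σ / 8) σ r (n / Q + 1)) (Nc := Ic.card)
    (Nb := (Is.card : ℝ)) (q := q) (n := n) (a8 := AXc p r (c * n))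
    (M := 1600 * (Λ + 1) * 4 ^ r) (X := q + 1)
    (r1 := 1) hκ hκ1 hK1 hβ2.le hR1 ha1 hR2 hM0 hη hgeo0 hg
    (Nat.cast_nonneg _) hNc (by positivity) hint (Nat.cast_nonneg _) (by linarith)
    (by positivity) zero_le_one (by linarith) hn5 he.le
  have h3 : (Nat.card {z : Cube n // ¬ Hard α κ Λ t u A G w T z} : ℝ) ≤ S.card := by
    have h4 : Nat.card {z : Cube n // ¬ Hard α κ Λ t u A G w T z} ≤ S.card := by
      rw [Nat.card_eq_fintype_card, Fintype.card_subtype]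
      refine card_le_card fun z hz => ?_
      rw [mem_filter] at hz
      rw [hS, mem_filter]
      refine ⟨mem_univ _, fun hgood => hz.2 ?_⟩
      rw [hη] at hgood
      exact hard_of_goodX hκ hκ1 hΛ hG hk2 w T (fun i => (hw i).2)
        (fun i => (hw i).1) (fun j => (hT j).1) z hgood
    exact_mod_cast h4
  exact h3.trans (h1.trans (hsum.trans h2))

theorem main (α κ Λ t e : ℝ) (r : ℕ) (hα : 0 ≤ α) (hκ : 0 < κ) (hκ1 : κ ≤ 1) (hΛ : 0 ≤ Λ)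
    (ht : 0 < t) (he : 0 < e) :
    ∃ c C : ℝ, 0 < c ∧ 0 < C ∧ ∃ k₀ n₀ : ℕ, ∀ k ≥ k₀, ∀ n ≥ n₀, ∀ m : ℕ,
      C * 2 ^ k * n ≤ m →
      (Nat.card {G : Fin m → Clause n k // ¬ ∀ (Y : Type) (_ : Fintype Y) (_ : DecidableEq Y)
        (p q : ℕ) (w : Fin p → List (Letter n m Y)) (A : Set (Fin p → ℝ))
        (T : Fin q → List (Gate n p Y)) (u : ℝ),
        (p ≤ c * n ∨ (p ≤ (2 : ℝ) ^ (c * n) ∧ Cov c n A)) → q ≤ (2 : ℝ) ^ (c * n) →
        (∀ i, (w i).length ≤ r ∧ ∀ l ∈ w i, l.Ok t r G) →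
        (∀ j, (∀ g ∈ T j, g.Ok) ∧ ((T j).map Gate.act).sum ≤ c * n) →
        (Nat.card {z : Cube n // ¬ Hard α κ Λ t u A G w T z} : ℝ) ≤
          2 ^ ((α + 2 * u + e) * n)} : ℝ)
      ≤ Nat.card (Fin m → Clause n k) / 2 ^ n := by
  obtain ⟨Q, σ, K1, hQ1, hσ0, hσ1, hK1, hK2, hK3, hθ⟩ :=
    params (e1 := e / 16) (κ := κ) (Λ := Λ) r (by linarith) hκ hΛ
  obtain ⟨δ, hδ0, hδ1, hball⟩ := ball_in (β := e / 16) (by linarith)
  have hB0 : 0 ≤ Λ * 2 ^ (r + 1) := by positivity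
  obtain ⟨Is, ns, -, hs1, hs2⟩ := exists_net (ζ := σ) (A := -(Λ * 2 ^ (r + 1)))
    (B := Λ * 2 ^ (r + 1)) hσ0 (by linarith)
  obtain ⟨M0, hM0⟩ : ∃ M0 : ℝ, M0 = Λ * (r * 2 ^ (r + 1)) := ⟨_, rfl⟩
  have hM00 : 0 ≤ M0 := by rw [hM0]; positivity
  obtain ⟨τ, hτ⟩ : ∃ τ : ℝ, τ = min (σ / 8) (κ / 12) / (M0 + 1) := ⟨_, rfl⟩
  have hτ0 : 0 < τ := by
    rw [hτ]
    exact div_pos (lt_min (by linarith) (by linarith)) (by linarith)
  have hτM : M0 * (3 * τ) ≤ 3 * min (σ / 8) (κ / 12) := by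
    have h1 : τ * (M0 + 1) = min (σ / 8) (κ / 12) := by
      rw [hτ]
      field_simp
    nlinarith
  have hτσ : M0 * (3 * τ) ≤ σ / 2 := by
    have := min_le_left (σ / 8) (κ / 12)
    linarith
  have hτκ : M0 * (3 * τ) ≤ κ / 4 := by
    have := min_le_right (σ / 8) (κ / 12)
    linarith
  obtain ⟨ε, hε⟩ : ∃ ε : ℝ, ε = min τ (min 1 (t / 4)) := ⟨_, rfl⟩
  have hε0 : 0 < ε := by
    rw [hε]; exact lt_min hτ0 (lt_min one_pos (by linarith))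
  have hε1 : ε ≤ τ := by rw [hε]; exact min_le_left _ _
  have hε2 : ε ≤ 1 := by rw [hε]; exact (min_le_right _ _).trans (min_le_left _ _)
  have hε3 : ε ≤ t / 4 := by rw [hε]; exact (min_le_right _ _).trans (min_le_right _ _)
  obtain ⟨C, hC0, k1, hC⟩ := typR_count (ε := ε) (δ := δ) (ν := ε) r hε0 hε2 hδ0
    (by linarith) hε0 hε2
  obtain ⟨k2, hk2⟩ := exists_nat_ge ((2 / τ) ^ 2)
  obtain ⟨c, hc⟩ : ∃ c : ℝ, c = min (e / 16 / (8 * Λ / σ + 2))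
      (min (e / (512 * 16 ^ r)) (σ / 8)) := ⟨_, rfl⟩
  have hc0 : 0 < c := by
    rw [hc]
    exact lt_min (by positivity) (lt_min (by positivity) (by positivity))
  have hc1 : c ≤ e / 16 / (8 * Λ / σ + 2) := by rw [hc]; exact min_le_left _ _
  have hc2 : c ≤ e / (512 * 16 ^ r) := by
    rw [hc]; exact (min_le_right _ _).trans (min_le_left _ _)
  have hc3 : c ≤ σ / 8 := by
    rw [hc]; exact (min_le_right _ _).trans (min_le_right _ _)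
  obtain ⟨n1, hn1⟩ := lin_le_exp (c := e / 16) (by linarith) (A := 1) zero_le_one
  obtain ⟨n2, hn2⟩ := lin_le_exp (c := e / 16) (by linarith)
    (A := 4 * 4 * 4 * 4 * 1 * (Is.card : ℝ) ^ 2 *
      (25 / κ ^ 2 * 16 * K1 ^ 4) * ((1600 * (Λ + 1) * 4 ^ r) / κ) ^ 2)
    (by positivity)
  obtain ⟨n3, hn3⟩ := lin_le_exp (c := e / 512) (by linarith)
    (A := 6 * (r + 1) * 16 ^ r) (by positivity)
  obtain ⟨n4, hn4⟩ := lin_le_exp (c := e / 256) (by linarith)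
    (A := 2 + c * 4 ^ (r + 1)) (by positivity)
  refine ⟨c, C, hc0, hC0, max k1 k2, 1 + n1 + n2 + n3 + n4,
    fun k hk n hn m hm => ?_⟩
  have hn0 : 1 ≤ n := by omega
  have hn0' : (1 : ℝ) ≤ n := by exact_mod_cast hn0
  have hm0 : 0 < m := by
    have h1 : 0 < C * 2 ^ k * n := by positivity
    have h2 : (0 : ℝ) < m := h1.trans_le hm
    exact_mod_cast h2
  have h1 := hC k ((le_max_left _ _).trans hk) n hn0 m hm
  refine le_trans ?_ h1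
  -- k is large
  have hkτ : 2 / Real.sqrt (2 ^ k) ≤ τ := by
    have h3 : (2 / τ) ^ 2 ≤ 2 ^ k := by
      refine hk2.trans ?_
      have h4 : k2 ≤ 2 ^ k :=
        ((le_max_right _ _).trans hk).trans (Nat.lt_two_pow_self).le
      exact_mod_cast h4
    have h4 : 2 / τ ≤ Real.sqrt (2 ^ k) := Real.le_sqrt_of_sq_le h3
    have h5 : 0 < Real.sqrt (2 ^ k) := Real.sqrt_pos.2 (by positivity)
    rw [div_le_iff₀ h5]
    rw [div_le_iff₀ hτ0] at h4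
    linarith
  have hsum : Λ * (r * 2 ^ (r + 1)) * (ε + ε + 2 / Real.sqrt (2 ^ k)) ≤ M0 * (3 * τ) := by
    rw [← hM0]
    exact mul_le_mul_of_nonneg_left (by linarith) hM00
  have h2 : Nat.card {G : Fin m → Clause n k // ¬ ∀ (Y : Type) (_ : Fintype Y) (_ : DecidableEq Y)
        (p q : ℕ) (w : Fin p → List (Letter n m Y)) (A : Set (Fin p → ℝ))
        (T : Fin q → List (Gate n p Y)) (u : ℝ),
        (p ≤ c * n ∨ (p ≤ (2 : ℝ) ^ (c * n) ∧ Cov c n A)) → q ≤ (2 : ℝ) ^ (c * n) →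
        (∀ i, (w i).length ≤ r ∧ ∀ l ∈ w i, l.Ok t r G) →
        (∀ j, (∀ g ∈ T j, g.Ok) ∧ ((T j).map Gate.act).sum ≤ c * n) →
        (Nat.card {z : Cube n // ¬ Hard α κ Λ t u A G w T z} : ℝ) ≤
          2 ^ ((α + 2 * u + e) * n)} ≤
      Nat.card {G : Fin m → Clause n k // ¬ (Typ ε δ ε G ∧ TypR r δ ε G)} := by
    refine Nat.card_le_card_of_injective (fun G => ⟨G.1, fun hG => G.2 ?_⟩) fun G G' h =>
      Subtype.ext (congrArg (fun x => x.1) h)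
    intro Y _ _ p q w A T u hp hq hw hT
    have hS : Std ε δ ε t r G.1 := ⟨hm0, hε0.le, hε2, hε0.le, by linarith, hG.1, hG.2⟩
    have hp' : (p : ℝ) ≤ 2 ^ (c * n) := by
      rcases hp with hp | hp
      · exact hp.trans le_two_rpow
      · exact hp.1
    obtain ⟨K, _, Ic, cell, bx, hN, hNc⟩ : ∃ (K : Type) (_ : DecidableEq K) (Ic : Finset K)
        (cell : (Fin p → ℝ) → K) (bx : K → Fin p → ℝ), Nets A Λ (σ / 8) σ r Ic Is cell bx ns ∧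
        (Ic.card : ℝ) ≤ 2 * 2 ^ (e / 16 * n) := by
      rcases hp with hp | hp
      · exact nets_few hΛ hσ0 he.le hc0.le hc1 hp hs1 hs2
      · have h16 : (1 : ℝ) ≤ 16 ^ r := one_le_pow₀ (by norm_num)
        exact nets_cov hσ0 he.le hc0.le hc3
          (hc2.trans (div_le_div_of_nonneg_left he.le (by norm_num) (by linarith))) hp.2 hs1 hs2
    refine one_formula (ε := ε) (δ := δ) (ν := ε) (σ := σ) (K1 := K1) (Q := Q) hα hκ hκ1 hΛ he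
      hQ1 hσ0 hK1 hK2 hK3 hθ hball
      (hsum.trans hτσ) (hsum.trans hτκ) (hn1 n (by omega)) hc0 hc2
      (hn3 n (by omega)) (hn4 n (by omega)) hS hN hNc ?_ w T u hp' hq hw hT
    have h3 := hn2 n (by omega)
    refine le_trans ?_ h3
    have h4 : (0 : ℝ) ≤ 4 * 4 * 4 * 4 * 1 * (Is.card : ℝ) ^ 2 *
        (25 / κ ^ 2 * 16 * K1 ^ 4) * ((1600 * (Λ + 1) * 4 ^ r) / κ) ^ 2 := by
      positivity
    nlinarith
  exact_mod_cast h2

end Pool.Agent.H73.AZ
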