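import Mathlib
import Pool.Agent.H73.AD.Stmt

/-!
Adiabatic paths and short evolutions for planted k-CNF formulas, with Hamiltonians that are
polynomials in the cost function, in clause terms and in oracles: the definitions used by the
statement.

`Cube n`, `Clause n k`, `Violates` are the ones of `Pool/Agent/H73/QA/Stmt.lean`; `Op`, `nsq`,
`Bdd`, `pviol`, `Iso` are the ones of `Pool/Agent/H73/AD/Stmt.lean`.
-/

namespace Pool.Agent.H73.AZ

open Finset Matrix Pool.Agent.H73.QA Pool.Agent.H73.AD

/-- The number of true literals of the clause `c` under the assignment `x`. -/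
def tl {n k : ℕ} (x : Cube n) (c : Clause n k) : ℕ :=
  (univ.filter fun i => x (c.1 i) ≠ c.2 i).card

/-- The factors of a word. -/
inductive Letter (n m : ℕ) (Y : Type) : Type
  | fix (D : Op n Y)
  | cost
  | cls (h : Fin m → Op n Y)
  | pen (h : Fin m → Op n Y)
  | orc (D : Op n Y) (X : Cube n → Op n Y)

variable {n k m p q : ℕ} {Y : Type} [Fintype Y] [DecidableEq Y]

/-- The letters that are used for the formula `G`.  Fixed operators `fix D` are contractions.  The
sum of all clause terms `h j` of `cls h` and of `pen h` is a contraction.  The clause terms of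
`cls h` have norm at most `2 ^ (k / 2) / m`; the clause terms of `pen h` have norm at most
`2 ^ k / (2 m (k + 1) ^ (r / 2))`, and `h j` acts only on assignments which make at most `r` literals
of clause `j` true.  The oracle `X z` of `orc D X` is a contraction which differs from the fixed
contraction `D` only on the assignments that violate at most the fraction `(1 - t) / 2 ^ k` of the
clauses. -/
def Letter.Ok (t : ℝ) (r : ℕ) (G : Fin m → Clause n k) : Letter n m Y → Prop
  | .fix D => Bdd D 1
  | .cost => True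
  | .cls h => Bdd (∑ j, h j) 1 ∧ ∀ j, Bdd (h j) (Real.sqrt (2 ^ k) / m)
  | .pen h => Bdd (∑ j, h j) 1 ∧ ∀ j, Bdd (h j) (2 ^ k / (2 * m * Real.sqrt ((k + 1) ^ r))) ∧
      ∀ x y, h j x y ≠ 0 → tl x.1 (G j) ≤ r ∧ tl y.1 (G j) ≤ r
  | .orc D X => Bdd D 1 ∧ ∀ z, Bdd (X z) 1 ∧ ∀ x y, X z x y ≠ D x y →
      (pviol G z x.1 : ℝ) ≤ (1 - t) * m / 2 ^ k ∧ (pviol G z y.1 : ℝ) ≤ (1 - t) * m / 2 ^ k

/-- The operator of a letter for the formula `F` that consists of the clauses of `G` satisfied by
`z`: the cost is `2 ^ k / m` times the number of violated clauses of `F`, the clause terms are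
summed over the clauses of `F`. -/
noncomputable def Letter.op (G : Fin m → Clause n k) (z : Cube n) : Letter n m Y → Op n Y
  | .fix D => D
  | .cost => diagonal fun x => ((2 ^ k / m * pviol G z x.1 : ℝ) : ℂ)
  | .cls h => ∑ j ∈ univ.filter (fun j => ¬ Violates z (G j)), h j
  | .pen h => ∑ j ∈ univ.filter (fun j => ¬ Violates z (G j)), h j
  | .orc _ X => X z

/-- The averaged operator of a letter: the cost is replaced by `1`, the clause terms are summed over
all clauses of `G`, the oracle is replaced by the fixed operator. -/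
noncomputable def Letter.av : Letter n m Y → Op n Y
  | .fix D => D
  | .cost => 1
  | .cls h => ∑ j, h j
  | .pen h => ∑ j, h j
  | .orc D _ => D

/-- Letters without cost, `pen` and oracle. -/
def Letter.Free : Letter n m Y → Prop
  | .fix _ => True
  | .cost => False
  | .cls _ => True
  | .pen _ => False
  | .orc _ _ => False

/-- The Hamiltonian `∑ i, a i (W i + (W i)ᴴ)`, where `W i` is the product of the letters of the word
`w i`, evaluated by `f`. -/
noncomputable def Ham {p : ℕ} (f : Letter n m Y → Op n Y) (w : Fin p → List (Letter n m Y))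
    (a : Fin p → ℝ) : Op n Y :=
  ∑ i, (a i : ℂ) • (((w i).map f).prod + ((w i).map f).prodᴴ)

/-- At most `2 ^ (α n)` eigenvalues of the Hermitian matrix `A` are smaller than `E + κ`. -/
def Few (α κ E : ℝ) (A : Op n Y) : Prop :=
  ∃ hA : A.IsHermitian,
    ((univ.filter fun i => hA.eigenvalues i < E + κ).card : ℝ) ≤ 2 ^ (α * n)

/-- `E` is low-lying: few eigenvalues of the averaged Hamiltonian `B` are smaller than `E + κ`, or
`E` is the lowest energy of `H` and few eigenvalues of `B` are smaller than `E₀ + κ` for some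
eigenvalue `E₀` of `B`. -/
def LowE (α κ : ℝ) (H B : Op n Y) (E : ℝ) : Prop :=
  Few α κ E B ∨ ((∀ v : Cube n × Y → ℂ, E * nsq v ≤ (star v ⬝ᵥ H *ᵥ v).re) ∧
    ∃ (E₀ : ℝ) (v : Cube n × Y → ℂ), v ≠ 0 ∧ B *ᵥ v = (E₀ : ℂ) • v ∧ Few α κ E₀ B)

/-- The gates of a circuit: a fixed operator, or the evolution for unit time under the Hamiltonian
whose `i`-th coefficient is `a i z`. -/
inductive Gate (n p : ℕ) (Y : Type) : Type
  | fix (D : Op n Y)
  | ev (a : Fin p → Cube n → ℝ)

/-- Fixed operators are contractions. -/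
def Gate.Ok : Gate n p Y → Prop
  | .fix D => Bdd D 1
  | .ev _ => True

/-- The action of a gate: `0` for a fixed operator, the sum of the maximal absolute values of the
coefficients for an evolution. -/
noncomputable def Gate.act : Gate n p Y → ℝ
  | .fix _ => 0
  | .ev a => ∑ i, ⨆ z, |a i z|

/-- The operator of a gate: `exp (- i H)` for an evolution, where `H` is the Hamiltonian with
coefficients `a i z`. -/
noncomputable def Gate.op (f : Letter n m Y → Op n Y) (w : Fin p → List (Letter n m Y))
    (z : Cube n) : Gate n p Y → Op n Y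
  | .fix D => D
  | .ev a => NormedSpace.exp ((-Complex.I) • Ham f w fun i => a i z)

/-- The operator of a circuit. -/
noncomputable def circ (f : Letter n m Y → Op n Y) (w : Fin p → List (Letter n m Y)) (z : Cube n)
    (C : List (Gate n p Y)) : Op n Y :=
  (C.map (Gate.op f w z)).prod

/-- The set `A` of coefficient vectors is covered by at most `2 ^ (c n)` boxes of `ℓ¹` size at most
`c`: box `j` consists of the vectors whose `i`-th entry differs from `x j i` by at most `b j i`. -/
def Cov (c : ℝ) (n : ℕ) (A : Set (Fin p → ℝ)) : Prop :=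
  ∃ (N : ℕ) (x b : Fin N → Fin p → ℝ), (N : ℝ) ≤ 2 ^ (c * n) ∧ (∀ j, ∑ i, b j i ≤ c) ∧
    ∀ a ∈ A, ∃ j, ∀ i, |a i - x j i| ≤ b j i

/-- A schedule consists of `l + 1` continuous paths of Hamiltonians `Ham`, given by coefficient
vectors `a i s ∈ A` of `ℓ¹` norm at most `Λ`; at the beginning only words with the letters `fix` and
`cls` are used.  It follows unit eigenvectors `ψ i s` for eigenvalues `E i s`, which are continuous
along each path, low-lying, and separated by at least `g > 2 ^ (-u n)` from the rest of the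
spectrum.  Between two paths one of the circuits `T j` is applied, such that the overlap with the
next eigenvector exceeds `2 ^ (-u n) / g`.  Then every circuit `T j` maps the last eigenvector to a
vector of norm at most `2 ^ (-u n) / g` on every set `L` of assignments that violate at most the
fraction `(1 - t) / 2 ^ k` of the clauses. -/
def Hard (α κ Λ t u : ℝ) (A : Set (Fin p → ℝ)) (G : Fin m → Clause n k)
    (w : Fin p → List (Letter n m Y)) (T : Fin q → List (Gate n p Y)) (z : Cube n) : Prop :=
  ∀ (g : ℝ) (l : ℕ) (a : ℕ → ℝ → Fin p → ℝ) (E : ℕ → ℝ → ℝ) (ψ : ℕ → ℝ → Cube n × Y → ℂ),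
    (2 : ℝ) ^ (-u * n) < g → g ≤ 1 → (∀ i, a 0 0 i ≠ 0 → ∀ l ∈ w i, l.Free) →
    (∀ i ≤ l, ContinuousOn (a i) (Set.Icc 0 1) ∧ ContinuousOn (E i) (Set.Icc 0 1) ∧
      ∀ s ∈ Set.Icc (0 : ℝ) 1, a i s ∈ A ∧ ∑ j, |a i s j| ≤ Λ ∧
        Iso (Ham (Letter.op G z) w (a i s)) g (E i s) (ψ i s) ∧
        LowE α κ (Ham (Letter.op G z) w (a i s)) (Ham Letter.av w (a i s)) (E i s)) →
    (∀ i < l, ∃ j, (2 : ℝ) ^ (-u * n) / g <
      ‖star (ψ (i + 1) 0) ⬝ᵥ circ (Letter.op G z) w z (T j) *ᵥ ψ i 1‖) →
    ∀ (j : Fin q) (L : Finset (Cube n)),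
      (∀ x ∈ L, (pviol G z x : ℝ) ≤ (1 - t) * m / 2 ^ k) →
      Real.sqrt (∑ x ∈ L, ∑ y, ‖(circ (Letter.op G z) w z (T j) *ᵥ ψ l 1) (x, y)‖ ^ 2) ≤
        (2 : ℝ) ^ (-u * n) / g

end Pool.Agent.H73.AZ
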