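import Pool.Agent.H73.AZ.Let
import Pool.Agent.H73.AW.Wd

/-! Bounds for words. -/

namespace Pool.Agent.H73.AZ

open Finset Matrix Pool.Agent.H73.QA Pool.Agent.H73.AD

set_option linter.unusedSectionVars false

variable {n k m : ℕ} {Y : Type} [Fintype Y] [DecidableEq Y] {p q r : ℕ}
variable {G : Fin m → Clause n k} {ε δ ν t β : ℝ}

theorem wd_nil (f : Letter n m Y → Op n Y) : wd f [] = 1 := rfl

theorem wd_cons (f : Letter n m Y → Op n Y) (l : Letter n m Y) (w : List (Letter n m Y)) :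
    wd f (l :: w) = f l * wd f w := by
  unfold wd
  rw [List.map_cons, List.prod_cons]

theorem lin_wd_nil (f : Letter n m Y → Op n Y) (u : Sp n Y) : lin (wd f []) u = u := by
  rw [wd_nil, lin_one]
  rfl

theorem lin_wd_cons (f : Letter n m Y → Op n Y) (l : Letter n m Y) (w : List (Letter n m Y))
    (u : Sp n Y) : lin (wd f (l :: w)) u = lin (f l) (lin (wd f w) u) := by
  rw [wd_cons, lin_mul]
  rfl

/-- norm of a word -/
theorem norm_wd {f : Letter n m Y → Op n Y} {K : ℝ} (hK : 0 ≤ K) (w : List (Letter n m Y))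
    (hw : ∀ l ∈ w, ∀ u, ‖lin (f l) u‖ ≤ K * ‖u‖) (u : Sp n Y) :
    ‖lin (wd f w) u‖ ≤ K ^ w.length * ‖u‖ := by
  induction w with
  | nil => rw [lin_wd_nil]; simp
  | cons l w ih =>
    rw [lin_wd_cons, List.length_cons, pow_succ']
    have h1 := hw l (by simp) (lin (wd f w) u)
    have h2 := ih fun l hl => hw l (by simp [hl])
    calc _ ≤ _ := h1
      _ ≤ K * (K ^ w.length * ‖u‖) := mul_le_mul_of_nonneg_left h2 hK
      _ = _ := by ring

theorem norm_wd_op (hS : Std ε δ ν t r G) (z : Cube n) (w : List (Letter n m Y))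
    (hw : ∀ l ∈ w, l.Ok t r G) (u : Sp n Y) :
    ‖lin (wd (Letter.op G z) w) u‖ ≤ 2 ^ w.length * ‖u‖ :=
  norm_wd zero_le_two w (fun l hl u => norm_op_le hS z (hw l hl) u) u

theorem norm_wd_flt (hS : Std ε δ ν t r G) (z : Cube n) (w : List (Letter n m Y))
    (hw : ∀ l ∈ w, l.Ok t r G) (u : Sp n Y) :
    ‖lin (wd (Letter.flt G δ z) w) u‖ ≤ 2 ^ w.length * ‖u‖ :=
  norm_wd zero_le_two w (fun l hl u => norm_flt_le hS z (hw l hl) u) u

theorem norm_wd_av (w : List (Letter n m Y)) (hw : ∀ l ∈ w, l.Ok t r G) (u : Sp n Y) :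
    ‖lin (wd Letter.av w) u‖ ≤ ‖u‖ := by
  have h := norm_wd (f := Letter.av) zero_le_one w
    (fun l hl u => by rw [one_mul]; exact norm_av_le (hw l hl) u) u
  rwa [one_pow, one_mul] at h

/-- averaged versus flattened word -/
theorem wd_av_flt (hS : Std ε δ ν t r G) (z : Cube n) (w : List (Letter n m Y))
    (hw : ∀ l ∈ w, l.Ok t r G) (u : Sp n Y) :
    ‖lin (wd Letter.av w) u - lin (wd (Letter.flt G δ z) w) u‖ ≤
      w.length * 2 ^ w.length * (ν + ε + 2 / Real.sqrt (2 ^ k)) * ‖u‖ := by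
  obtain ⟨σ, hσ⟩ : ∃ σ, σ = ν + ε + 2 / Real.sqrt (2 ^ k) := ⟨_, rfl⟩
  have hν := hS.ν0
  have hε0 := hS.ε0
  have hσ0 : 0 ≤ σ := by rw [hσ]; positivity
  rw [← hσ]
  induction w with
  | nil => rw [lin_wd_nil, lin_wd_nil]; simp
  | cons l w ih =>
    have hl : l.Ok t r G := hw l (by simp)
    have hw' : ∀ l ∈ w, l.Ok t r G := fun l hl => hw l (by simp [hl])
    rw [lin_wd_cons, lin_wd_cons]
    have h1 : lin l.av (lin (wd Letter.av w) u) -
        lin (l.flt G δ z) (lin (wd (Letter.flt G δ z) w) u) =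
        lin l.av (lin (wd Letter.av w) u - lin (wd (Letter.flt G δ z) w) u) +
        (lin l.av (lin (wd (Letter.flt G δ z) w) u) -
          lin (l.flt G δ z) (lin (wd (Letter.flt G δ z) w) u)) := by
      rw [map_sub]; abel
    rw [h1]
    refine (norm_add_le _ _).trans ?_
    have h2 := (norm_av_le hl (lin (wd Letter.av w) u - lin (wd (Letter.flt G δ z) w) u)).trans
      (ih hw')
    have h3 := av_flt_le hS z hl (lin (wd (Letter.flt G δ z) w) u)
    rw [← hσ] at h3
    have h4 := norm_wd_flt hS z w hw' u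
    have h5 : σ * ‖lin (wd (Letter.flt G δ z) w) u‖ ≤ σ * (2 ^ w.length * ‖u‖) :=
      mul_le_mul_of_nonneg_left h4 hσ0
    have h6 : (0 : ℝ) ≤ 2 ^ w.length * σ * ‖u‖ := by positivity
    rw [List.length_cons, pow_succ]
    push_cast
    have h7 : (0 : ℝ) ≤ w.length * (2 ^ w.length * σ * ‖u‖) := by positivity
    nlinarith

/-- flattened words are good -/
theorem goodOp_wd (hS : Std ε δ ν t r G) {Z : Type} [Fintype Z] (hβ : 0 ≤ β) (ζ : Z → Cube n)
    (hB : ∀ x, ((univ.filter fun z => x ∈ hball δ (ζ z)).card : ℝ) ≤ β ^ 2)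
    (w : List (Letter n m Y)) (hw : ∀ l ∈ w, l.Ok t r G) :
    GoodOp β (16 ^ w.length) fun z => lin (wd (Letter.flt G δ (ζ z)) w) := by
  induction w with
  | nil =>
    have h1 : (fun z => lin (wd (Letter.flt G δ (ζ z)) ([] : List (Letter n m Y)))) =
        fun _ => LinearMap.id := by
      funext z
      rw [wd_nil, lin_one]
    rw [h1]
    simpa using goodOp_fixed (β := β) (Z := Z) zero_le_one
      (LinearMap.id : Sp n Y →ₗ[ℂ] Sp n Y) (fun u => by simp)
  | cons l w ih =>
    have h1 := (ih fun l hl => hw l (by simp [hl])).comp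
      (goodOp_flt hS hβ ζ hB (hw l (by simp)))
    have h2 : (fun z => lin (l.flt G δ (ζ z)) ∘ₗ lin (wd (Letter.flt G δ (ζ z)) w)) =
        fun z => lin (wd (Letter.flt G δ (ζ z)) (l :: w)) := by
      funext z
      rw [wd_cons, lin_mul]
    rw [h2] at h1
    rw [List.length_cons, pow_succ']
    exact h1

theorem NW_nonneg (G : Fin m → Clause n k) (δ : ℝ) (z : Cube n) (w : List (Letter n m Y))
    (u : Sp n Y) : 0 ≤ NW G δ z w u := by
  induction w with
  | nil => exact norm_nonneg _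
  | cons l w ih => exact add_nonneg ih (add_nonneg (LV_nonneg _ _ _ _ _) (norm_nonneg _))

theorem near_le_NW (G : Fin m → Clause n k) (δ : ℝ) (z : Cube n) (w : List (Letter n m Y))
    (u : Sp n Y) : ‖nearP (hball δ z) (lin (wd (Letter.flt G δ z) w) u)‖ ≤ NW G δ z w u := by
  cases w with
  | nil =>
    rw [lin_wd_nil]
    exact le_rfl
  | cons l w =>
    show _ ≤ NW G δ z w u + (_ + _)
    have h1 := NW_nonneg G δ z w u
    have h2 := LV_nonneg G δ z l (lin (wd (Letter.flt G δ z) w) u)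
    linarith

/-- flattened versus actual word -/
theorem wd_diff (hS : Std ε δ ν t r G) (z : Cube n) (w : List (Letter n m Y))
    (hw : ∀ l ∈ w, l.Ok t r G) (u : Sp n Y) :
    ‖lin (wd (Letter.flt G δ z) w) u - lin (wd (Letter.op G z) w) u‖ ≤
      4 ^ w.length * NW G δ z w u := by
  induction w with
  | nil =>
    rw [lin_wd_nil, lin_wd_nil, sub_self, norm_zero]
    exact mul_nonneg (by positivity) (NW_nonneg _ _ _ _ _)
  | cons l w ih =>
    have hl : l.Ok t r G := hw l (by simp)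
    have hw' : ∀ l ∈ w, l.Ok t r G := fun l hl => hw l (by simp [hl])
    rw [lin_wd_cons, lin_wd_cons]
    have h1 : lin (l.flt G δ z) (lin (wd (Letter.flt G δ z) w) u) -
        lin (l.op G z) (lin (wd (Letter.op G z) w) u) =
        (lin (l.flt G δ z) (lin (wd (Letter.flt G δ z) w) u) -
          lin (l.op G z) (lin (wd (Letter.flt G δ z) w) u)) +
        lin (l.op G z) (lin (wd (Letter.flt G δ z) w) u - lin (wd (Letter.op G z) w) u) := by
      rw [map_sub]; abel
    rw [h1]
    refine (norm_add_le _ _).trans ?_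
    have h2 := flt_op_le hS z hl (lin (wd (Letter.flt G δ z) w) u)
    have h3 := near_le_NW G δ z w u
    have h4 := norm_op_le hS z hl
      (lin (wd (Letter.flt G δ z) w) u - lin (wd (Letter.op G z) w) u)
    have h5 := ih hw'
    have h6 : (1 : ℝ) ≤ 4 ^ w.length := one_le_pow₀ (by norm_num)
    obtain ⟨e, he⟩ : ∃ e : ℝ, e = 4 ^ w.length := ⟨_, rfl⟩
    obtain ⟨L, hL⟩ : ∃ L : ℝ, L = LV G δ z l (lin (wd (Letter.flt G δ z) w) u) := ⟨_, rfl⟩
    obtain ⟨N, hN⟩ : ∃ N : ℝ, N = NW G δ z w u := ⟨_, rfl⟩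
    obtain ⟨M, hM⟩ : ∃ M : ℝ, M =
      ‖nearP (hball δ z) (lin (wd (Letter.flt G δ z) (l :: w)) u)‖ := ⟨_, rfl⟩
    have hL0 : 0 ≤ L := by rw [hL]; exact LV_nonneg _ _ _ _ _
    have hN0 : 0 ≤ N := by rw [hN]; exact NW_nonneg _ _ _ _ _
    have hM0 : 0 ≤ M := by rw [hM]; exact norm_nonneg _
    show _ ≤ 4 ^ (w.length + 1) * (NW G δ z w u +
      (LV G δ z l (lin (wd (Letter.flt G δ z) w) u) +
      ‖nearP (hball δ z) (lin (wd (Letter.flt G δ z) (l :: w)) u)‖))
    rw [pow_succ, ← he, ← hL, ← hN, ← hM]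
    rw [← he] at h6
    rw [← he, ← hN] at h5
    rw [← hL] at h2
    rw [← hN] at h3
    have h7 : 0 ≤ e * M := by positivity
    have h8 : L ≤ e * L := by nlinarith
    have h9 : N ≤ e * N := by nlinarith
    nlinarith

/-- adjoints -/
theorem adj_op (G : Fin m → Clause n k) (z : Cube n) (l : Letter n m Y) :
    l.adj.op G z = (l.op G z)ᴴ := by
  cases l with
  | fix D => rfl
  | cost => exact AW.adj_op G z (AW.Letter.cost : AW.Letter n m Y)
  | cls h => exact AW.adj_op G z (AW.Letter.cls h)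
  | pen h => exact AW.adj_op G z (AW.Letter.cls h)
  | orc D X => rfl

theorem far_adj (δ : ℝ) (z : Cube n) : (far δ z : Op n Y)ᴴ = far δ z := by
  unfold far
  rw [diagonal_conjTranspose]
  congr 1
  funext x
  simp only [Pi.star_apply]
  split_ifs <;> simp

theorem adj_flt (G : Fin m → Clause n k) (δ : ℝ) (z : Cube n) (l : Letter n m Y) :
    l.adj.flt G δ z = (l.flt G δ z)ᴴ := by
  cases l with
  | fix D => rfl
  | cost => exact AW.adj_flt G δ z (AW.Letter.cost : AW.Letter n m Y)
  | cls h => exact AW.adj_flt G δ z (AW.Letter.cls h)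
  | pen h =>
    show ∑ j, (h j)ᴴ - far δ z * vio G (fun j => (h j)ᴴ) z * far δ z =
      (∑ j, h j - far δ z * vio G h z * far δ z)ᴴ
    rw [conjTranspose_sub, conjTranspose_sum, conjTranspose_mul, conjTranspose_mul, far_adj,
      mul_assoc]
    unfold vio
    rw [conjTranspose_sum]
  | orc D X => rfl

theorem adj_av (l : Letter n m Y) : l.adj.av = l.avᴴ := by
  cases l with
  | fix D => rfl
  | cost => show (1 : Op n Y) = 1ᴴ; rw [conjTranspose_one]
  | cls h => show ∑ j, (h j)ᴴ = (∑ j, h j)ᴴ; rw [conjTranspose_sum]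
  | pen h => show ∑ j, (h j)ᴴ = (∑ j, h j)ᴴ; rw [conjTranspose_sum]
  | orc D X => rfl

theorem adj_ok {l : Letter n m Y} (hl : l.Ok t r G) : l.adj.Ok t r G := by
  cases l with
  | fix D => exact AW.bdd_adj zero_le_one hl
  | cost => trivial
  | cls h =>
    refine ⟨?_, fun j => AW.bdd_adj (by positivity) (hl.2 j)⟩
    have h1 := AW.bdd_adj zero_le_one hl.1
    rwa [conjTranspose_sum] at h1
  | pen h =>
    refine ⟨?_, fun j => ⟨AW.bdd_adj (by positivity) (hl.2 j).1, fun x y hxy => ?_⟩⟩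
    · have h1 := AW.bdd_adj zero_le_one hl.1
      rwa [conjTranspose_sum] at h1
    · have h1 : h j y x ≠ 0 := by
        intro h0
        apply hxy
        show (h j)ᴴ x y = 0
        rw [conjTranspose_apply, h0, star_zero]
      exact ((hl.2 j).2 y x h1).symm
  | orc D X =>
    refine ⟨AW.bdd_adj zero_le_one hl.1, fun z => ⟨AW.bdd_adj zero_le_one (hl.2 z).1,
      fun x y hxy => ?_⟩⟩
    have h1 : X z y x ≠ D y x := by
      intro h0
      apply hxy
      show (X z)ᴴ x y = Dᴴ x y
      rw [conjTranspose_apply, conjTranspose_apply, h0]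
    exact ((hl.2 z).2 y x h1).symm

theorem adjW_ok {w : List (Letter n m Y)} (hw : ∀ l ∈ w, l.Ok t r G) :
    ∀ l ∈ adjW w, l.Ok t r G := by
  intro l hl
  unfold adjW at hl
  rw [List.mem_reverse, List.mem_map] at hl
  obtain ⟨l', h1, h2⟩ := hl
  rw [← h2]
  exact adj_ok (hw l' h1)

theorem adjW_length (w : List (Letter n m Y)) : (adjW w).length = w.length := by
  unfold adjW
  rw [List.length_reverse, List.length_map]

theorem wd_adj {f : Letter n m Y → Op n Y} (hf : ∀ l, f l.adj = (f l)ᴴ)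
    (w : List (Letter n m Y)) : (wd f w)ᴴ = wd f (adjW w) := by
  unfold wd adjW
  rw [conjTranspose_list_prod, List.map_map, List.map_reverse, List.map_map]
  congr 2
  apply List.map_congr_left
  intro l _
  exact (hf l).symm

theorem ham_eq {f : Letter n m Y → Op n Y} (hf : ∀ l, f l.adj = (f l)ᴴ)
    (w : Fin p → List (Letter n m Y)) (a : Fin p → ℝ) :
    Ham f w a = ∑ i, (a i : ℂ) • (wd f (w i) + wd f (adjW (w i))) := by
  unfold Ham
  refine sum_congr rfl fun i _ => ?_
  rw [← wd_adj hf]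
  rfl

theorem ham_herm (f : Letter n m Y → Op n Y) (w : Fin p → List (Letter n m Y)) (a : Fin p → ℝ) :
    (Ham f w a).IsHermitian := by
  unfold Ham
  rw [IsHermitian, conjTranspose_sum]
  refine sum_congr rfl fun i _ => ?_
  rw [conjTranspose_smul, conjTranspose_add, conjTranspose_conjTranspose, add_comm]
  congr 1
  simp

/-- without cost, pen and oracle there is nothing to flatten -/
theorem ham_start {G : Fin m → Clause n k} {δ : ℝ} (z : Cube n) (w : Fin p → List (Letter n m Y))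
    (a : Fin p → ℝ) (ha : ∀ i, a i ≠ 0 → ∀ l ∈ w i, l.Free) :
    Ham (Letter.flt G δ z) w a = Ham (Letter.op G z) w a := by
  unfold Ham
  refine sum_congr rfl fun i _ => ?_
  by_cases h0 : a i = 0
  · rw [h0]
    simp
  · have h1 : (w i).map (Letter.flt G δ z) = (w i).map (Letter.op G z) := by
      apply List.map_congr_left
      intro l hl
      have h2 := ha i h0 l hl
      cases l with
      | fix D => rfl
      | cost => exact absurd h2 id
      | cls h => rfl
      | pen h => exact absurd h2 id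
      | orc D X => exact absurd h2 id
    rw [h1]

end Pool.Agent.H73.AZ
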